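import Pool.Agent.Q187.MC.Fil

/-!
# Bloch-Beilinson filtrations and algebraically trivial cycles on powers of curves
-/

open CategoryTheory AlgebraicGeometry

universe u v w

namespace Pool.Agent.Q187.MC

open Pool.Agent.H914 Pool.Agent.H914.VarClass Pool.Agent.H914.VarClass.Obj Pool.Agent.W492.BB
  Pool.Agent.W550.Corr Pool.Agent.TH133 Pool.Agent.Y148.BB Pool.Agent.Q187.AJ Pool.Agent.Q187.BC
  Pool.Agent.Q28.GL

set_option linter.unusedSectionVars false
set_option linter.unusedVariables false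

variable {k : Type u} [Field k] {𝒱 : VarClass k}

variable {C : TheoryData.{u, v, 0} 𝒱 ℚ} [hC : IsChowProj C] {K : Type w} [Field K]
  {H : WeilTheoryData.{u, v, w} C K} [hH : IsWeilProj H] {X Y Z Z' W T T' P S R B M P' R' : 𝒱.Obj}
  {N : ∀ X : 𝒱.Obj, ℕ → Submodule ℚ (C.A X)} {Q : ∀ S : 𝒱.Obj, C.A (S.prod S) → Prop}

/-- The properties of a Bloch-Beilinson filtration, except for the condition on `F^2`. -/
structure IsBB (H : WeilTheoryData.{u, v, w} C K) (S : 𝒱.Obj → Prop)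
    (F : ∀ X : 𝒱.Obj, ℕ → ℕ → Submodule ℚ (C.A X)) : Prop where
  anti : ∀ X, S X → ∀ j ν : ℕ, F X j (ν + 1) ≤ F X j ν
  zero : ∀ X, S X → ∀ (j : ℕ) (z : C.A X), z ∈ F X j 0 ↔ C.Deg j z
  one : ∀ X, S X → ∀ (j : ℕ) (z : C.A X), z ∈ F X j 1 ↔ C.Deg j z ∧ H.cl z = 0
  top : ∀ X, S X → ∀ (j : ℕ) (z : C.A X), z ∈ F X j (j + 1) → z = 0
  stable : ∀ X Y, S X → S Y → ∀ (j i ν : ℕ) (Γ : C.A (X.prod Y)), C.Deg (X.dim + i - j) Γ →
    ∀ z ∈ F X j ν, C.act Γ z ∈ F Y i ν
  shift : ∀ X Y, S X → S Y → ∀ (j i ν : ℕ) (Γ : C.A (X.prod Y)), C.Deg (X.dim + i - j) Γ →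
    Kills H Γ (2 * j - ν) → ∀ z ∈ F X j ν, C.act Γ z ∈ F Y i (ν + 1)

/-- The varieties dominated by products of curves. -/
def Ab (C : TheoryData.{u, v, 0} 𝒱 ℚ) : 𝒱.Obj → Prop := Hull C 0 (IsProduct (Q0 C))

include hC hH

/-- The filtration. -/
lemma isBB_fil (hW : ∀ j, VW (C := C) H j) (hB : ∀ j n, 2 * j < n → VB C j n) :
    IsBB H (Ab C) (Fil H) where
  anti X hX j ν := fil_anti j ν
  zero X hX j z := ⟨fun h => h.1, fun h => fil_zero hW hB h⟩
  one X hX j z := ⟨fun h => ⟨h.1, fil_one_hom hX h⟩, fun h => fil_one hW hB h.1 h.2⟩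
  top X hX j z h := fil_top hX h
  stable X Y hX hY j i ν Γ hΓ z hz := fil_stable hΓ hz
  shift X Y hX hY j i ν Γ hΓ hk z hz := fil_shift hW hB hX hΓ hk hz

/-- A filtration forces vanishing. -/
lemma key_bb {𝓢 : 𝒱.Obj → Prop} {F : ∀ X : 𝒱.Obj, ℕ → ℕ → Submodule ℚ (C.A X)}
    (hF : IsBB H 𝓢 F) {n : ℕ} {p : C.A (P.prod P)} (hpure : IsPure H n P p) (hP : 𝓢 P) (j : ℕ)
    (ν : ℕ) (z : C.A P) (hν : 2 * j < n + ν) (hz : z ∈ F P j ν) (hpz : C.act p z = z) : z = 0 := by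
  have h1 : ∀ μ : ℕ, z ∈ F P j (ν + μ) := by
    intro μ
    induction μ with
    | zero => exact hz
    | succ μ ih =>
      have h2 := hF.shift P P hP hP j j (ν + μ) p (by simpa using hpure.mem)
        (hpure.kills _ (by push_cast; omega)) z ih
      rwa [hpz] at h2
  have h3 : ∀ μ : ℕ, F P j (j + 1 + μ) ≤ F P j (j + 1) := by
    intro μ
    induction μ with
    | zero => exact le_rfl
    | succ μ ih => exact (hF.anti P hP j _).trans ih
  have h4 := h1 (j + 1)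
  rw [Nat.add_comm ν] at h4
  exact hF.top P hP j z (h3 ν h4)

lemma vw_of_bb {F : ∀ X : 𝒱.Obj, ℕ → ℕ → Submodule ℚ (C.A X)} (hF : IsBB H (Ab C) F) (j : ℕ) :
    VW (C := C) H j := by
  intro P p hp z hz h0
  have hpure := isPure_part (H := H) hQ0 hp
  have hP : Ab C P := hull_of_mem (IsPart.isProduct hp)
  refine key_bb hF hpure hP j 1 _ (by omega) ?_ (by rw [← C.act_comp, hpure.idem])
  exact hF.stable P P hP hP j j 1 p (by simpa using hpure.mem) z ((hF.one P hP j z).2 ⟨hz, h0⟩)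

/-- The condition for powers of one curve, homologically trivial classes. -/
def PowW (H : WeilTheoryData.{u, v, w} C K) (j : ℕ) : Prop :=
  ∀ (T : 𝒱.Obj) (o : C.A T), T.dim = 1 → C.Deg 1 o → HasDegree C o 1 →
    ∀ z : C.A (pw T (2 * j - 1)), C.Deg j z → H.cl z = 0 → C.act (pwp o (2 * j - 1)) z = 0

/-- The condition for powers of one curve, algebraically trivial classes. -/
def PowAJ (H : WeilTheoryData.{u, v, w} C K) (N : ∀ X : 𝒱.Obj, ℕ → Submodule ℚ (C.A X)) (j : ℕ) :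
    Prop :=
  ∀ (T : 𝒱.Obj) (o : C.A T), T.dim = 1 → C.Deg 1 o → HasDegree C o 1 →
    ∀ z ∈ N (pw T (2 * j - 2)) j, z ∈ AlgT H (pw T (2 * j - 2)) j →
      C.act (pwp o (2 * j - 2)) z = 0

/-- The condition for powers of one curve, all classes. -/
def PowInj (N : ∀ X : 𝒱.Obj, ℕ → Submodule ℚ (C.A X)) (j : ℕ) : Prop :=
  ∀ (T : 𝒱.Obj) (o : C.A T), T.dim = 1 → C.Deg 1 o → HasDegree C o 1 →
    ∀ z ∈ N (pw T (2 * j - 2)) j, C.act (pwp o (2 * j - 2)) z = 0

lemma vw_iff_pow (hc : Covers C) {j : ℕ} (hj : 1 ≤ j) : VW (C := C) H j ↔ PowW H j := by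
  constructor
  · intro h T o hT ho hd z hz h0
    refine h _ _ ?_ z hz h0
    have h1 := isPart_pw hT ho hd (2 * j - 1)
    have e : 2 * j - 1 + 1 = 2 * j := by omega
    rwa [e] at h1
  · intro h
    exact vw_pow hc (m := 2 * j - 1) (by omega) fun T o hT ho hd z hz h0 => h T o hT ho hd z hz h0

lemma vaj_iff_pow (hN : IsAbelJacobiKernel H N) (hc : Covers C) {j : ℕ} (hj : 1 ≤ j) :
    VAJ (C := C) H N j ↔ PowAJ H N j := by
  constructor
  · intro h T o hT ho hd z hz hzA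
    refine h _ _ ?_ z hz hzA
    have h1 := isPart_pw hT ho hd (2 * j - 2)
    have e : 2 * j - 2 + 1 = 2 * j - 1 := by omega
    rwa [e] at h1
  · intro h
    exact vaj_pow hN hc (m := 2 * j - 2) (by omega) fun T o hT ho hd z hz hzA =>
      h T o hT ho hd z hz hzA

lemma inj_iff_pow (hN : IsAbelJacobiKernel H N) (hc : Covers C) {j : ℕ} (hj : 1 ≤ j) :
    InjectiveOnPrimitive (Q0 C) N j ↔ PowInj N j := by
  constructor
  · intro h T o hT ho hd z hz
    have h1 := isPart_pw hT ho hd (2 * j - 2)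
    have e : 2 * j - 2 + 1 = 2 * j - 1 := by omega
    rw [e] at h1
    have hp := isPure_part (H := H) hQ0 h1
    refine h _ _ h1 _ (stable0 hN hp.mem hz) ?_
    rw [← C.act_comp, hp.idem]
  · intro h P p hp z hz hpz
    obtain ⟨m', T, o, hm, hT, ho, hd, f, g, c, hc0, hf, hg, e⟩ := exists_pow (H := H) hc hp
    obtain rfl : m' = 2 * j - 2 := by omega
    have hpm := (isPure_part (H := H) hQ0 hp).mem
    rw [← hpz]
    refine Through.act_zero hc0 e (h T o hT ho hd _ ?_)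
    refine hN.stable P _ j j f (gr_congr (by ring) hf) _ ?_
    exact hN.stable P _ j j p (gr_congr (by ring) hpm) z hz

lemma vw_zero : VW (C := C) H 0 := by
  intro P p hp z hz h0
  have h1 := (isPure_part (H := H) hQ0 hp).pos
  omega

/-- The main theorem on filtrations. -/
theorem bb_tfae (hF : FibreProperty C) (hN : IsAbelJacobiKernel H N) (hG : Spread H N)
    (hc : Covers C) :
    List.TFAE [
      ∃ F, IsBB H (Ab C) F,
      ∃ F, IsBB H (Ab C) F ∧ (∀ X, Ab C X → ∀ (j : ℕ) (z : C.A X), z ∈ F X j 2 → z ∈ N X j) ∧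
        ∀ X, Ab C X → ∀ (j : ℕ) (z : C.A X), z ∈ AlgT H X j → z ∈ N X j → z ∈ F X j 2,
      ∀ j : ℕ, 1 ≤ j → PowW H j,
      ∀ j : ℕ, 2 ≤ j → PowAJ H N j] := by
  have all_of_aj : (∀ j : ℕ, 2 ≤ j → PowAJ H N j) → ∀ j, VW (C := C) H j ∧ VAJ (C := C) H N j ∧
      ∀ n, 2 * j < n → VB C j n := by
    intro h j
    have h1 : ∀ i, 2 ≤ i → i ≤ j → VAJ (C := C) H N i := fun i hi _ =>
      (vaj_iff_pow hN hc (by omega)).2 (h i hi)
    obtain ⟨h2, h3⟩ := w_of_aj hF hN h1 j le_rfl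
    refine ⟨h2, ?_, h3⟩
    rcases Nat.lt_or_ge j 2 with hj | hj
    · exact vaj_small hN hj
    · exact h1 j hj le_rfl
  tfae_have 2 → 1 := fun ⟨F, hF, _⟩ => ⟨F, hF⟩
  tfae_have 1 → 3 := fun ⟨F, hF⟩ j hj => (vw_iff_pow hc hj).1 (vw_of_bb hF j)
  tfae_have 3 → 4 := by
    intro h j hj
    refine (vaj_iff_pow hN hc (by omega)).1 (aj_of_vw hG (by omega) ?_)
    exact (vw_iff_pow hc (by omega)).2 (h j (by omega))
  tfae_have 4 → 2 := by
    intro h
    have h1 := all_of_aj h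
    refine ⟨Fil H, isBB_fil (fun j => (h1 j).1) (fun j n hn => (h1 j).2.2 n hn), ?_, ?_⟩
    · exact fun X hX j z hz => fil_two_le hN hX hz
    · exact fun X hX j z hzA hz => fil_two (fun j => (h1 j).1) (fun j n hn => (h1 j).2.2 n hn) hN
        (fun j => (h1 j).2.1) hz hzA
  tfae_finish

/-- The filtration is unique. -/
theorem bb_unique {F : ∀ X : 𝒱.Obj, ℕ → ℕ → Submodule ℚ (C.A X)} (hF : IsBB H (Ab C) F)
    (hX : Ab C X) (j ν : ℕ) (z : C.A X) : z ∈ F X j ν ↔ z ∈ Fil H X j ν := by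
  have anti : ∀ (Y : 𝒱.Obj), Ab C Y → ∀ (i μ m : ℕ), F Y i (μ + m) ≤ F Y i μ := by
    intro Y hY i μ m
    induction m with
    | zero => exact le_rfl
    | succ m ih => exact (hF.anti Y hY i _).trans ih
  constructor
  · intro hz
    have hz0 : C.Deg j z := by
      have h1 := anti X hX j 0 ν
      rw [Nat.zero_add] at h1
      exact (hF.zero X hX j z).1 (h1 hz)
    refine ⟨hz0, fun Z π hZ hπ hf i Γ hΓ l hl => ?_⟩
    have hZ' : Ab C Z := hull_of_mem hZ
    have hw := hF.stable X Z hX hZ' j i ν Γ hΓ z hz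
    have h1 : ∀ m : ℕ, C.act (π l) (C.act Γ z) ∈ F Z i (ν + m) := by
      intro m
      induction m with
      | zero => exact hF.stable Z Z hZ' hZ' i i ν (π l) (gr_congr (by ring) (hπ.deg l)) _ hw
      | succ m ih =>
        have h2 := hF.shift Z Z hZ' hZ' i i (ν + m) (π l) (gr_congr (by ring) (hπ.deg l))
          (fun a ha => hπ.act_ne l _ a (by push_cast; omega) ha) _ ih
        rwa [← C.act_comp, hπ.idem] at h2
    have h3 := h1 (i + 1)
    rw [Nat.add_comm ν] at h3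
    exact hF.top Z hZ' i _ (anti Z hZ' i (i + 1) ν h3)
  · intro hz
    obtain ⟨Z, hZ, f, g, hf, hg, hfg⟩ := hX
    have hX : Ab C X := ⟨Z, hZ, f, g, hf, hg, hfg⟩
    have hZ' : Ab C Z := hull_of_mem hZ
    obtain ⟨π, hπ, hπf⟩ := exists_ck (H := H) hQ0 hZ
    have hf' : C.Deg (X.dim + (j : ℤ) - j) f := gr_congr (by push_cast; ring) hf
    have hg' : C.Deg (Z.dim + (j : ℤ) - j) g := gr_congr (by push_cast; ring) hg
    have hfz : C.Deg j (C.act f z) := act_deg hf' hz.1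
    rw [← hfg z]
    refine hF.stable Z X hZ' hX j j ν g hg' _ ?_
    rw [sum_ck hπ (C.act f z)]
    refine Submodule.sum_mem _ fun l _ => ?_
    by_cases hl : 2 * j < l + ν
    · rw [hz.2 Z π hZ hπ hπf j f hf' l hl]
      exact Submodule.zero_mem _
    · have h1 : ∀ μ : ℕ, μ ≤ ν → C.act (π l) (C.act f z) ∈ F Z j μ := by
        intro μ
        induction μ with
        | zero => exact fun _ => (hF.zero Z hZ' j _).2 (act_mem0 C (hπ.deg l) hfz)
        | succ μ ih =>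
          intro hμ
          have h2 := hF.shift Z Z hZ' hZ' j j μ (π l) (gr_congr (by ring) (hπ.deg l))
            (fun a ha => hπ.act_ne l _ a (by omega) ha) _ (ih (by omega))
          rwa [← C.act_comp, hπ.idem] at h2
      exact h1 ν le_rfl

/-- Any filtration has the expected second step on algebraically trivial classes. -/
theorem bb_two (hF : FibreProperty C) (hN : IsAbelJacobiKernel H N) (hG : Spread H N)
    {F : ∀ X : 𝒱.Obj, ℕ → ℕ → Submodule ℚ (C.A X)} (hFF : IsBB H (Ab C) F)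
    (hX : Ab C X) (j : ℕ) (z : C.A X) :
    (z ∈ F X j 2 → z ∈ N X j) ∧ (z ∈ AlgT H X j → z ∈ N X j → z ∈ F X j 2) := by
  have hW := vw_of_bb hFF
  have hB : ∀ j n, 2 * j < n → VB C j n := fun j n hn =>
    vb_of_w (H := H) hF (d := j) (fun i _ => hW i) j le_rfl n hn
  have hA : ∀ j, VAJ (C := C) H N j := fun j => by
    rcases Nat.lt_or_ge j 2 with hj | hj
    · exact vaj_small hN hj
    · exact aj_of_vw hG (by omega) (hW j)
  exact ⟨fun hz => fil_two_le hN hX ((bb_unique hFF hX j 2 z).1 hz),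
    fun hzA hz => (bb_unique hFF hX j 2 z).2 (fil_two hW hB hN hA hz hzA)⟩

/-- The filtrations with `F^2` equal to the kernel of the Abel-Jacobi map. -/
theorem bb_full (hF : FibreProperty C) (hN : IsAbelJacobiKernel H N) (hc : Covers C) :
    HasBB H N 0 (Ab C) ↔ ∀ j : ℕ, 2 ≤ j → PowInj N j := by
  have h := hasBB_iff_injective (Q := Q0 C) hN hF hQ0
  rw [Ab, h]
  exact forall_congr' fun j => forall_congr' fun hj => inj_iff_pow hN hc (by omega)

end Pool.Agent.Q187.MC
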