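import Pool.Agent.Q187.BC.Stmt

/-!
# Products of curves and powers of one curve: definitions
-/

open CategoryTheory AlgebraicGeometry

universe u v w

namespace Pool.Agent.Q187.MCS

open Pool.Agent.H914 Pool.Agent.H914.VarClass Pool.Agent.H914.VarClass.Obj Pool.Agent.W492.BB
  Pool.Agent.W550.Corr Pool.Agent.TH133 Pool.Agent.Q187.AJS

variable {k : Type u} [Field k] {𝒱 : VarClass k}

/-- The variety is a product, in any order and with any bracketing, of curves. -/
inductive IsProductOfCurves : 𝒱.Obj → Prop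
  | curve (T : 𝒱.Obj) (hT : T.dim = 1) : IsProductOfCurves T
  | prod (P P' : 𝒱.Obj) (h : IsProductOfCurves P) (h' : IsProductOfCurves P') :
      IsProductOfCurves (P.prod P')

/-- The power `T^(n+1)` of the variety `T`. -/
noncomputable def pow (T : 𝒱.Obj) : ℕ → 𝒱.Obj
  | 0 => T
  | n + 1 => (pow T n).prod T

variable (C : TheoryData.{u, v, 0} 𝒱 ℚ)

/-- The projector on the motive `h^1(T) ⊗ ⋯ ⊗ h^1(T)`, with `n + 1` factors: the external power of
the projector `Δ - o × T - T × o` of the curve `T`. -/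
noncomputable def oddPow {T : 𝒱.Obj} (o : C.A T) : ∀ n : ℕ, C.A ((pow T n).prod (pow T n))
  | 0 => odd C o
  | n + 1 => AJS.tens C (oddPow o n) (odd C o)

variable {K : Type w} [Field K] (H : WeilTheoryData.{u, v, w} C K)

/-- `F ν` is the step `F^ν` of a filtration on the Chow groups of the varieties of the class `S`
with the properties 1 - 4 of the problem, for all correspondences between varieties of the class
`S`, except for the condition on `F^2`. -/
structure IsFiltration (S : 𝒱.Obj → Prop) (F : ℕ → Fam C) : Prop where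
  anti : ∀ X, S X → ∀ (j ν : ℕ) (z : C.A X), (F (ν + 1)).In j z → (F ν).In j z
  zero : ∀ X, S X → ∀ (j : ℕ) (z : C.A X), (F 0).In j z ↔ C.Deg j z
  one : ∀ X, S X → ∀ (j : ℕ) (z : C.A X), (F 1).In j z ↔ C.Deg j z ∧ Triv C H z
  top : ∀ X, S X → ∀ (j : ℕ) (z : C.A X), (F (j + 1)).In j z → z = 0
  stable : ∀ X Y, S X → S Y → ∀ (j i ν : ℕ) (Γ : C.A (X.prod Y)), Maps C j i Γ →
    ∀ z, (F ν).In j z → (F ν).In i (C.act Γ z)
  shift : ∀ X Y, S X → S Y → ∀ (j i ν : ℕ) (Γ : C.A (X.prod Y)), Maps C j i Γ →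
    Kills H Γ (2 * j - ν) → ∀ z, (F ν).In j z → (F (ν + 1)).In i (C.act Γ z)

end Pool.Agent.Q187.MCS
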