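import Pool.Agent.Q187.MC.BB
import Pool.Agent.Q187.MC.Stmt
import Pool.Agent.Q187.BC.Conv

/-!
# The main theorems in terms of the definitions of the statement
-/

open CategoryTheory AlgebraicGeometry

universe u v w

namespace Pool.Agent.Q187.MCS

open Pool.Agent.H914 Pool.Agent.H914.VarClass Pool.Agent.H914.VarClass.Obj Pool.Agent.W492.BB
  Pool.Agent.W550.Corr Pool.Agent.Q187.AJS Pool.Agent.Q187.BCS

open Pool.Agent.TH133 hiding tens

set_option linter.unusedSectionVars false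
set_option linter.unusedVariables false

variable {k : Type u} [Field k] {𝒱 : VarClass k}

variable {C : TheoryData.{u, v, 0} 𝒱 ℚ} [hC : IsChowProj C] {K : Type w} [Field K]
  {H : WeilTheoryData.{u, v, w} C K} [hH : IsWeilProj H] {X Y Z W T P S R : 𝒱.Obj}
  {N : Fam C}

lemma product_iff : IsProductOfCurves Z ↔ AJ.IsProduct (MC.Q0 C) Z := by
  constructor
  · intro h
    induction h with
    | curve T hT => exact AJ.IsProduct.curve T hT
    | prod P P' _ _ ih ih' => exact AJ.IsProduct.prod P P' ih ih'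
  · intro h
    induction h with
    | curve T hT => exact IsProductOfCurves.curve T hT
    | surface S q h => exact h.elim
    | prod P P' _ _ ih ih' => exact IsProductOfCurves.prod P P' ih ih'

lemma dominated_eq : Dominated C IsProductOfCurves = MC.Ab C := by
  have h : (IsProductOfCurves : 𝒱.Obj → Prop) = AJ.IsProduct (MC.Q0 C) :=
    funext fun Z => propext (product_iff (C := C))
  rw [dominated_conv, h]
  rfl

lemma oddPow_eq {o : C.A T} (n : ℕ) : oddPow C o n = MC.pwp o n := by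
  induction n with
  | zero => rfl
  | succ n ih =>
    change AJS.tens C (oddPow C o n) (odd C o) = _
    rw [ih]
    rfl

include hC

lemma powW_conv {j : ℕ} :
    (∀ (T : 𝒱.Obj) (o : C.A T), T.dim = 1 → DegreeOne C o → ∀ z : C.A (pow T (2 * j - 1)),
      C.Deg j z → Triv C H z → C.act (oddPow C o (2 * j - 1)) z = 0) ↔ MC.PowW H j := by
  constructor
  · intro h T o hT ho hd z hz h0
    have h1 := h T o hT ((degreeOne_of_curve hT).2 ⟨ho, hd⟩) z hz h0
    rw [oddPow_eq] at h1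
    exact h1
  · intro h T o hT ho z hz h0
    rw [oddPow_eq]
    exact h T o hT ((degreeOne_of_curve hT).1 ho).1 ((degreeOne_of_curve hT).1 ho).2 z hz h0

lemma powAJ_conv {j : ℕ} :
    (∀ (T : 𝒱.Obj) (o : C.A T), T.dim = 1 → DegreeOne C o → ∀ z : C.A (pow T (2 * j - 2)),
      AlgTriv C H j z → N.In j z → C.act (oddPow C o (2 * j - 2)) z = 0) ↔ MC.PowAJ H N j := by
  constructor
  · intro h T o hT ho hd z hz hzA
    have h1 := h T o hT ((degreeOne_of_curve hT).2 ⟨ho, hd⟩) z hzA hz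
    rw [oddPow_eq] at h1
    exact h1
  · intro h T o hT ho z hzA hz
    rw [oddPow_eq]
    exact h T o hT ((degreeOne_of_curve hT).1 ho).1 ((degreeOne_of_curve hT).1 ho).2 z hz hzA

lemma powInj_conv {j : ℕ} :
    (∀ (T : 𝒱.Obj) (o : C.A T), T.dim = 1 → DegreeOne C o → ∀ z : C.A (pow T (2 * j - 2)),
      N.In j z → C.act (oddPow C o (2 * j - 2)) z = 0) ↔ MC.PowInj (C := C) N j := by
  constructor
  · intro h T o hT ho hd z hz
    have h1 := h T o hT ((degreeOne_of_curve hT).2 ⟨ho, hd⟩) z hz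
    rw [oddPow_eq] at h1
    exact h1
  · intro h T o hT ho z hz
    rw [oddPow_eq]
    exact h T o hT ((degreeOne_of_curve hT).1 ho).1 ((degreeOne_of_curve hT).1 ho).2 z hz

omit hC in
lemma fil_conv {𝓢 : 𝒱.Obj → Prop} {F : ℕ → Fam C} :
    IsFiltration C H 𝓢 F ↔ MC.IsBB H 𝓢 (fun X j ν => F ν X j) := by
  constructor
  · intro h
    exact ⟨fun X hX j ν z hz => h.anti X hX j ν z hz, h.zero, h.one, h.top, h.stable, h.shift⟩
  · intro h
    exact ⟨fun X hX j ν z hz => h.anti X hX j ν hz, h.zero, h.one, h.top, h.stable, h.shift⟩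

omit hC in
lemma fil_conv' {𝓢 : 𝒱.Obj → Prop} {F : ∀ X : 𝒱.Obj, ℕ → ℕ → Submodule ℚ (C.A X)} :
    IsFiltration C H 𝓢 (fun ν X j => F X j ν) ↔ MC.IsBB H 𝓢 F := fil_conv

include hH

theorem main_bb (hN : IsAbelJacobiKernel C H N) (hF : FibreProperty C)
    (hG : SpreadProperty C H N) (hc : CommonCovers C) :
    List.TFAE [
      ∃ F, IsFiltration C H (Dominated C IsProductOfCurves) F,
      ∃ F, IsFiltration C H (Dominated C IsProductOfCurves) F ∧
        ∀ X, Dominated C IsProductOfCurves X → ∀ (j : ℕ) (z : C.A X),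
          ((F 2).In j z → N.In j z) ∧ (AlgTriv C H j z → N.In j z → (F 2).In j z),
      ∀ j : ℕ, 1 ≤ j → ∀ (T : 𝒱.Obj) (o : C.A T), T.dim = 1 → DegreeOne C o →
        ∀ z : C.A (pow T (2 * j - 1)), C.Deg j z → Triv C H z →
          C.act (oddPow C o (2 * j - 1)) z = 0,
      ∀ j : ℕ, 2 ≤ j → ∀ (T : 𝒱.Obj) (o : C.A T), T.dim = 1 → DegreeOne C o →
        ∀ z : C.A (pow T (2 * j - 2)), AlgTriv C H j z → N.In j z →
          C.act (oddPow C o (2 * j - 2)) z = 0] := by
  have h := MC.bb_tfae (fibre_conv hF) (kernel_conv hN) (spread_conv hG) (covers_conv hc)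
  have e3 : (∀ j : ℕ, 1 ≤ j → ∀ (T : 𝒱.Obj) (o : C.A T), T.dim = 1 → DegreeOne C o →
        ∀ z : C.A (pow T (2 * j - 1)), C.Deg j z → Triv C H z →
          C.act (oddPow C o (2 * j - 1)) z = 0) ↔ ∀ j : ℕ, 1 ≤ j → MC.PowW H j :=
    forall_congr' fun j => forall_congr' fun _ => powW_conv
  have e4 : (∀ j : ℕ, 2 ≤ j → ∀ (T : 𝒱.Obj) (o : C.A T), T.dim = 1 → DegreeOne C o →
        ∀ z : C.A (pow T (2 * j - 2)), AlgTriv C H j z → N.In j z →
          C.act (oddPow C o (2 * j - 2)) z = 0) ↔ ∀ j : ℕ, 2 ≤ j → MC.PowAJ H N j :=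
    forall_congr' fun j => forall_congr' fun _ => powAJ_conv
  have e1 : (∃ F, IsFiltration C H (MC.Ab C) F) ↔ ∃ F, MC.IsBB H (MC.Ab C) F := by
    constructor
    · rintro ⟨F, hF⟩
      exact ⟨_, fil_conv.1 hF⟩
    · rintro ⟨F, hF⟩
      exact ⟨_, fil_conv'.2 hF⟩
  have e2 : (∃ F, IsFiltration C H (MC.Ab C) F ∧ ∀ X, MC.Ab C X → ∀ (j : ℕ) (z : C.A X),
          ((F 2).In j z → N.In j z) ∧ (AlgTriv C H j z → N.In j z → (F 2).In j z)) ↔
      ∃ F, MC.IsBB H (MC.Ab C) F ∧ (∀ X, MC.Ab C X → ∀ (j : ℕ) (z : C.A X),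
        z ∈ F X j 2 → z ∈ N X j) ∧
        ∀ X, MC.Ab C X → ∀ (j : ℕ) (z : C.A X), z ∈ BC.AlgT H X j → z ∈ N X j → z ∈ F X j 2 := by
    constructor
    · rintro ⟨F, hF, h⟩
      exact ⟨_, fil_conv.1 hF, fun X hX j z hz => (h X hX j z).1 hz,
        fun X hX j z hzA hz => (h X hX j z).2 hzA hz⟩
    · rintro ⟨F, hF, h1, h2⟩
      exact ⟨_, fil_conv'.2 hF, fun X hX j z => ⟨fun hz => h1 X hX j z hz,
        fun hzA hz => h2 X hX j z hzA hz⟩⟩
  rw [dominated_eq, e1, e2, e3, e4]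
  exact h

theorem main_unique (hN : IsAbelJacobiKernel C H N) (hF : FibreProperty C)
    (hG : SpreadProperty C H N) {F : ℕ → Fam C}
    (hFF : IsFiltration C H (Dominated C IsProductOfCurves) F)
    (hX : Dominated C IsProductOfCurves X) :
    (∀ (j : ℕ) (z : C.A X), ((F 2).In j z → N.In j z) ∧
      (AlgTriv C H j z → N.In j z → (F 2).In j z)) ∧
    ∀ F', IsFiltration C H (Dominated C IsProductOfCurves) F' → ∀ (ν j : ℕ) (z : C.A X),
      (F ν).In j z ↔ (F' ν).In j z := by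
  rw [dominated_eq] at hFF hX
  refine ⟨fun j z => ?_, fun F' hF' ν j z => ?_⟩
  · exact MC.bb_two (fibre_conv hF) (kernel_conv hN) (spread_conv hG) (fil_conv.1 hFF) hX j z
  · rw [dominated_eq] at hF'
    exact (MC.bb_unique (fil_conv.1 hFF) hX j ν z).trans
      (MC.bb_unique (fil_conv.1 hF') hX j ν z).symm

theorem main_full (hN : IsAbelJacobiKernel C H N) (hF : FibreProperty C) (hc : CommonCovers C) :
    HasBlochBeilinson C H N (Dominated C IsProductOfCurves) ↔
      ∀ j : ℕ, 2 ≤ j → ∀ (T : 𝒱.Obj) (o : C.A T), T.dim = 1 → DegreeOne C o →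
        ∀ z : C.A (pow T (2 * j - 2)), N.In j z → C.act (oddPow C o (2 * j - 2)) z = 0 := by
  rw [bb_conv, dominated_eq, MC.bb_full (fibre_conv hF) (kernel_conv hN) (covers_conv hc)]
  exact forall_congr' fun j => forall_congr' fun _ => powInj_conv.symm

end Pool.Agent.Q187.MCS
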