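import Pool.Agent.Q187.MC.Stmt

/-!
# Murre's conjectures (B) and (D) for products of curves: definitions
-/

open CategoryTheory AlgebraicGeometry

universe u v w

namespace Pool.Agent.Q187.MCS

open Pool.Agent.H914 Pool.Agent.H914.VarClass Pool.Agent.H914.VarClass.Obj Pool.Agent.W492.BB
  Pool.Agent.TH133 Pool.Agent.Q187.AJS Pool.Agent.Q187.BCS

variable {k : Type u} [Field k] {𝒱 : VarClass k} (C : TheoryData.{u, v, 0} 𝒱 ℚ) {K : Type w}
  [Field K] (H : WeilTheoryData.{u, v, w} C K)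

/-- Homologically trivial self-correspondences of degree zero of `Z` act nilpotently on the Chow
groups of `Z`. (For products of curves this holds by the theorem of Kimura.) -/
def ActsNilpotently (Z : 𝒱.Obj) : Prop :=
  ∀ γ : C.A (Z.prod Z), C.Deg Z.dim γ → Triv C H γ → ∃ n : ℕ, ∀ x : C.A Z,
    (fun y => C.act γ y)^[n] x = 0

/-- For every curve `T` the homologically trivial classes of codimension `j` in the motive
`h^1(T)^{⊗ 2 j}` are zero, `j ≥ 1`. -/
def VanishingInTheMiddle (j : ℕ) : Prop :=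
  ∀ (T : 𝒱.Obj) (o : C.A T), T.dim = 1 → DegreeOne C o → ∀ z : C.A (pow T (2 * j - 1)),
    C.Deg j z → Triv C H z → C.act (oddPow C o (2 * j - 1)) z = 0

/-- For every curve `T` the Abel-Jacobi map is injective on the algebraically trivial classes of
codimension `j` in the motive `h^1(T)^{⊗(2 j - 1)}`, `j ≥ 1`. -/
def InjectiveAbelJacobi (N : Fam C) (j : ℕ) : Prop :=
  ∀ (T : 𝒱.Obj) (o : C.A T), T.dim = 1 → DegreeOne C o → ∀ z : C.A (pow T (2 * j - 2)),
    AlgTriv C H j z → N.In j z → C.act (oddPow C o (2 * j - 2)) z = 0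

/-- The class `z` lies in the step `F^n CH^i(X) = (π_{2i-n} + ⋯ + π_0)_* CH^i(X)` of the filtration
attached to the Chow-Kunneth decomposition `π` (of `X` or of a motive `(X, p)`). -/
def InStep {X : 𝒱.Obj} (π : ℕ → C.A (X.prod X)) (i n : ℕ) (z : C.A X) : Prop :=
  ∃ y, C.Deg i y ∧ z = C.act (∑ j ∈ Finset.range (2 * i + 1 - n), π j) y

/-- Murre's conjecture (D) for the Chow-Kunneth decomposition `π` of `X`: `F^1 CH^i(X)` is the group
of homologically trivial classes, for all `i`. -/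
def SatisfiesD {X : 𝒱.Obj} (π : ℕ → C.A (X.prod X)) : Prop :=
  ∀ (i : ℕ) (z : C.A X), InStep C π i 1 z ↔ C.Deg i z ∧ Triv C H z

/-- Murre's conjecture (B) for the Chow-Kunneth decomposition `π` of `X`:
`F^0 CH^i(X) = CH^i(X)` and `F^(i+1) CH^i(X) = 0`, for all `i`. -/
def SatisfiesB {X : 𝒱.Obj} (π : ℕ → C.A (X.prod X)) : Prop :=
  ∀ (i : ℕ) (z : C.A X), (C.Deg i z → InStep C π i 0 z) ∧ (InStep C π i (i + 1) z → z = 0)

/-- `p` is a projector, so that `(X, p)` is a Chow motive. -/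
def IsMotive {X : 𝒱.Obj} (p : C.A (X.prod X)) : Prop := C.Deg X.dim p ∧ AJS.comp C p p = p

/-- The Tate twist `h(X)(-c)` of the Chow motive of `X` is a direct summand of the Chow motive of
`Z`: there are correspondences `f ∈ CH^(dim X + c)(X × Z)`, `g ∈ CH^(dim Z - c)(Z × X)` with
`g ∘ f = Δ_X`. -/
def IsSummand (c : ℕ) (X Z : 𝒱.Obj) : Prop :=
  ∃ (f : C.A (X.prod Z)) (g : C.A (Z.prod X)), C.Deg ((X.dim : ℤ) + c) f ∧
    C.Deg ((Z.dim : ℤ) - c) g ∧ AJS.comp C f g = diag C X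

/-- A Chow-Kunneth decomposition of the motive `M = (X, p)`: projectors `ρ 0, …, ρ (2 dim X)`
(`ρ i = 0` for `i > 2 dim X`), mutually orthogonal, with sum `p`, such that the cohomology of
`M^i = (X, ρ i)` is `H^i(M) = p_* H^i(X)`: the class of `ρ i` acts on `H^i(X)` as the class of `p`,
and as zero on `H^m(X)` for `m ≠ i`. -/
structure IsDecomposition {X : 𝒱.Obj} (p : C.A (X.prod X)) (ρ : ℕ → C.A (X.prod X)) : Prop where
  deg : ∀ i, C.Deg X.dim (ρ i)
  out : ∀ i, 2 * X.dim < i → ρ i = 0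
  idem : ∀ i, AJS.comp C (ρ i) (ρ i) = ρ i
  orth : ∀ i j, i ≠ j → AJS.comp C (ρ i) (ρ j) = 0
  sum : ∑ i ∈ Finset.range (2 * X.dim + 1), ρ i = p
  act_self : ∀ (i : ℕ) (a : H.A X), H.Deg i a → H.act (H.cl (ρ i)) a = H.act (H.cl p) a
  act_ne : ∀ (i : ℕ) (m : ℤ), m ≠ i → Kills H (ρ i) m

/-- Murre's conjectures for the motive `M = (X, p)` (equivalently for its Tate twists). There is a
Chow-Kunneth decomposition `ρ` of `M` (A) such that `CH^j(M^i) = 0` for `i > 2 j` (B) and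
`CH^j(M^(2j))_hom = 0` for all `j` (D), and the filtration
`F^ν CH^j(M) = ⊕_{i ≤ 2 j - ν} CH^j(M^i)` is the same for all Chow-Kunneth decompositions of `M`
(C). Here `CH^j(M^i) = (ρ i)_* CH^j(X)`. -/
def MurreConjectures {X : 𝒱.Obj} (p : C.A (X.prod X)) : Prop :=
  (∃ ρ, IsDecomposition C H p ρ ∧
    (∀ (j i : ℕ) (x : C.A X), C.Deg j x → 2 * j < i → C.act (ρ i) x = 0) ∧
    (∀ (j : ℕ) (x : C.A X), C.Deg j x → Triv C H x → C.act (ρ (2 * j)) x = 0)) ∧
  (∀ ρ ρ', IsDecomposition C H p ρ → IsDecomposition C H p ρ' → ∀ (j ν : ℕ) (x : C.A X),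
    InStep C ρ j ν x ↔ InStep C ρ' j ν x)

end Pool.Agent.Q187.MCS
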