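import Pool.Agent.Q187.MC.ConvM
import Pool.Agent.Q187.MC.StmtD

/-!
# Murre's conjectures in terms of the definitions of the statement
-/

open CategoryTheory AlgebraicGeometry

universe u v w

namespace Pool.Agent.Q187.MCS

open Pool.Agent.H914 Pool.Agent.H914.VarClass Pool.Agent.H914.VarClass.Obj Pool.Agent.W492.BB
  Pool.Agent.W550.Corr Pool.Agent.Q187.AJS Pool.Agent.Q187.BCS

open Pool.Agent.TH133 hiding tens

set_option linter.unusedSectionVars false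
set_option linter.unusedVariables false

variable {k : Type u} [Field k] {𝒱 : VarClass k}

variable {C : TheoryData.{u, v, 0} 𝒱 ℚ} [hC : IsChowProj C] {K : Type w} [Field K]
  {H : WeilTheoryData.{u, v, w} C K} [hH : IsWeilProj H] {X Y Z W T P S R : 𝒱.Obj}
  {N : Fam C}

lemma inStep_iff {π : ℕ → C.A (X.prod X)} {i n : ℕ} {z : C.A X} :
    InStep C π i n z ↔ z ∈ ckFil C π i n := by
  constructor
  · rintro ⟨y, hy, rfl⟩
    exact ⟨y, hy, rfl⟩
  · rintro ⟨y, hy, rfl⟩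
    exact ⟨y, hy, rfl⟩

lemma ck_iff {π : ℕ → C.A (X.prod X)} : IsChowKunneth C H X π ↔ IsCK H X π :=
  ⟨ck_conv, fun h => ⟨h.deg, h.out, h.idem, h.orth, h.sum, h.act_self,
    fun i m hm a ha => h.act_ne i m a hm ha⟩⟩

lemma murreD_iff : (∀ π, IsChowKunneth C H X π → SatisfiesD C H π) ↔ MurreD H X := by
  constructor
  · intro h π hπ i x
    rw [← inStep_iff]
    exact h π (ck_iff.2 hπ) i x
  · intro h π hπ i x
    rw [inStep_iff]
    exact h π (ck_iff.1 hπ) i x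

include hC hH in
lemma existsD_iff : (∃ π, IsChowKunneth C H X π ∧ SatisfiesD C H π) ↔
    ∃ π, IsCK H X π ∧ ∀ i, Q28.MD.SatisfiesDAt H π i := by
  constructor
  · rintro ⟨π, hπ, h⟩
    refine ⟨π, ck_iff.1 hπ, fun i x hx h0 => ?_⟩
    rw [← inStep_iff]
    exact (h i x).2 ⟨hx, h0⟩
  · rintro ⟨π, hπ, h⟩
    refine ⟨π, ck_iff.2 hπ, fun i x => ?_⟩
    rw [inStep_iff]
    exact ⟨fun hx => ⟨((hπ.mem_ckFil i 1 x).1 hx).1, Q28.MC.cl_eq_zero_of_mem hπ hx⟩,
      fun hx => h i x hx.1 hx.2⟩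

include hC hH in
lemma murreB_iff : (∀ π, IsChowKunneth C H X π → SatisfiesB C π) ↔ MurreB0 H X ∧ MurreB1 H X := by
  constructor
  · intro h
    refine ⟨fun π hπ i => ?_, fun π hπ i => ?_⟩
    · ext x
      constructor
      · intro hx
        exact ((hπ.mem_ckFil i 0 x).1 hx).1
      · intro hx
        exact inStep_iff.1 ((h π (ck_iff.2 hπ) i x).1 hx)
    · rw [eq_bot_iff]
      intro x hx
      exact (Submodule.mem_bot _).2 ((h π (ck_iff.2 hπ) i x).2 (inStep_iff.2 hx))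
  · rintro ⟨h0, h1⟩ π hπ i x
    constructor
    · intro hx
      rw [inStep_iff, h0 π (ck_iff.1 hπ) i]
      exact hx
    · intro hx
      rw [inStep_iff, h1 π (ck_iff.1 hπ) i] at hx
      exact (Submodule.mem_bot _).1 hx

include hC hH in
theorem main_d' (hN : IsAbelJacobiKernel C H N) (hF : FibreProperty C)
    (hG : SpreadProperty C H N) (hc : CommonCovers C)
    (hK : ∀ Z : 𝒱.Obj, IsProductOfCurves Z → ActsNilpotently C H Z) (d : ℕ) :
    List.TFAE [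
      ∀ Z : 𝒱.Obj, IsProductOfCurves Z → Z.dim ≤ d →
        ∀ π, IsChowKunneth C H Z π → SatisfiesD C H π,
      ∀ Z : 𝒱.Obj, IsProductOfCurves Z → Z.dim ≤ d →
        ∃ π, IsChowKunneth C H Z π ∧ SatisfiesD C H π,
      ∀ j : ℕ, 1 ≤ j → 2 * j ≤ d → VanishingInTheMiddle C H j,
      ∀ j : ℕ, 2 ≤ j → 2 * j ≤ d → InjectiveAbelJacobi C H N j] ∧
    ((∀ Z : 𝒱.Obj, IsProductOfCurves Z → Z.dim ≤ d →
        ∀ π, IsChowKunneth C H Z π → SatisfiesD C H π) →
      ∀ Z : 𝒱.Obj, IsProductOfCurves Z → Z.dim ≤ d + 1 →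
        ∀ π, IsChowKunneth C H Z π → SatisfiesB C π) := by
  have h := main_d hN hF hG hc hK d
  simp only [murreD_iff, existsD_iff, murreB_iff]
  exact h

lemma motive_iff {p : C.A (X.prod X)} : IsMotive C p ↔ Q28.MM.IsProjector p := Iff.rfl

lemma summand_iff {c : ℕ} : IsSummand C c X Z ↔ Q28.MM.Summand C c X Z := Iff.rfl

lemma decomposition_iff {p : C.A (X.prod X)} {ρ : ℕ → C.A (X.prod X)} :
    IsDecomposition C H p ρ ↔ Q28.MM.IsMotiveCK H p ρ :=
  ⟨fun h => ⟨h.deg, h.out, h.idem, h.orth, h.sum, h.act_self,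
    fun i m a hm ha => h.act_ne i m hm a ha⟩,
    fun h => ⟨h.deg, h.out, h.idem, h.orth, h.sum, h.act_self,
    fun i m hm a ha => h.act_ne i m a hm ha⟩⟩

lemma murre_iff {p : C.A (X.prod X)} : MurreConjectures C H p ↔ Q28.MM.Murre H p := by
  constructor
  · rintro ⟨⟨ρ, hρ, h1, h2⟩, h3⟩
    refine ⟨⟨ρ, decomposition_iff.1 hρ, h1, h2⟩, fun ρ ρ' hρ hρ' j ν => ?_⟩
    ext x
    rw [← inStep_iff, ← inStep_iff]
    exact h3 ρ ρ' (decomposition_iff.2 hρ) (decomposition_iff.2 hρ') j ν x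
  · rintro ⟨⟨ρ, hρ, h1, h2⟩, h3⟩
    refine ⟨⟨ρ, decomposition_iff.2 hρ, h1, h2⟩, fun ρ ρ' hρ hρ' j ν x => ?_⟩
    rw [inStep_iff, inStep_iff, h3 ρ ρ' (decomposition_iff.1 hρ) (decomposition_iff.1 hρ') j ν]

include hC hH in
theorem main_m' (hF : FibreProperty C) (hc : CommonCovers C) :
    List.TFAE [
      ∀ (X Z : 𝒱.Obj) (c : ℕ) (p : C.A (X.prod X)), IsProductOfCurves Z →
        IsSummand C c X Z → IsMotive C p → MurreConjectures C H p,
      ∀ Z : 𝒱.Obj, IsProductOfCurves Z → ∀ π, IsChowKunneth C H Z π → SatisfiesD C H π,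
      ∀ j : ℕ, 1 ≤ j → VanishingInTheMiddle C H j] ∧
    ∀ N : Fam C, IsAbelJacobiKernel C H N →
      (SpreadProperty C H N → ((∀ j : ℕ, 1 ≤ j → VanishingInTheMiddle C H j) ↔
        ∀ j : ℕ, 2 ≤ j → InjectiveAbelJacobi C H N j)) ∧
      ∀ d : ℕ, (∀ j : ℕ, 2 ≤ j → j ≤ d → InjectiveAbelJacobi C H N j) →
        ∀ (X Z : 𝒱.Obj) (c : ℕ) (p : C.A (X.prod X)), IsProductOfCurves Z → Z.dim ≤ d →
          IsSummand C c X Z → IsMotive C p → MurreConjectures C H p := by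
  have h := main_m (H := H) hF hc
  simp only [murreD_iff, murre_iff]
  exact h

end Pool.Agent.Q187.MCS
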