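import Pool.Agent.Q187.MC.BB
import Pool.Agent.Q28.MM.Main
import Pool.Agent.Q28.MD.Main
import Pool.Agent.Q28.MB.Main

/-!
# Murre's conjectures for products of curves
-/

open CategoryTheory AlgebraicGeometry

universe u v w

namespace Pool.Agent.Q187.MC

open Pool.Agent.H914 Pool.Agent.H914.VarClass Pool.Agent.H914.VarClass.Obj Pool.Agent.W492.BB
  Pool.Agent.W550.Corr Pool.Agent.TH133 Pool.Agent.Y148.BB Pool.Agent.Q187.AJ Pool.Agent.Q187.BC
  Pool.Agent.Q28.GL

set_option linter.unusedSectionVars false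
set_option linter.unusedVariables false

variable {k : Type u} [Field k] {𝒱 : VarClass k}

variable {C : TheoryData.{u, v, 0} 𝒱 ℚ} [hC : IsChowProj C] {K : Type w} [Field K]
  {H : WeilTheoryData.{u, v, w} C K} [hH : IsWeilProj H] {X Y Z Z' W T T' P S R B M P' R' : 𝒱.Obj}
  {N : ∀ X : 𝒱.Obj, ℕ → Submodule ℚ (C.A X)} {Q : ∀ S : 𝒱.Obj, C.A (S.prod S) → Prop}

include hC hH

/-- The projector of a part is a piece of a Chow-Kunneth decomposition. -/
lemma part_ck {n : ℕ} {P : 𝒱.Obj} {p : C.A (P.prod P)} (hp : IsPart (Q0 C) n P p) :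
    ∃ π, IsCK H P π ∧ C.comp (π n) p = p := by
  induction hp with
  | factor n T r hr =>
    cases hr with
    | curve _ o hT ho hd => exact ⟨curveCK C o, curveCK_isCK H hT ho hd, odd_odd hT ho hd⟩
    | surface _ _ h => exact h.elim
  | prod n m P T p r hp hr ih =>
    cases hr with
    | curve _ o hT ho hd =>
      obtain ⟨π, hπ, h1⟩ := ih
      refine ⟨prodCK C π (curveCK C o), hπ.prod (curveCK_isCK H hT ho hd), ?_⟩
      have h2 : prodCK C π (curveCK C o) (n + 1) =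
          ∑ i ∈ Finset.range (n + 1 + 1), tens C (π i) (curveCK C o (n + 1 - i)) := rfl
      rw [h2, sum_comp]
      rw [Finset.sum_eq_single n]
      · have e : n + 1 - n = 1 := by omega
        rw [e, tens_comp', h1]
        have h3 : C.comp (curveCK C o 1) (oddProj C o) = oddProj C o := odd_odd hT ho hd
        rw [h3]
      · intro i _ hi
        rw [tens_comp', ← h1, ← comp_assoc C, hπ.orth i n hi, zero_comp, tens_zero_left]
      · intro h
        exact absurd (Finset.mem_range.2 (by omega)) h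
    | surface _ _ h => exact h.elim

/-- Conjecture (D) for products of curves implies the vanishing in the middle. -/
lemma vw_of_murreD {j : ℕ} (h : ∀ P : 𝒱.Obj, IsProduct (Q0 C) P → P.dim = 2 * j → MurreD H P) :
    VW (C := C) H j := by
  intro P p hp z hz h0
  have hpure := isPure_part (H := H) hQ0 hp
  obtain ⟨π, hπ, h1⟩ := part_ck (H := H) hp
  have h2 := (h P (IsPart.isProduct hp) hpure.dim π hπ j z).2 ⟨hz, h0⟩
  rw [hπ.mem_ckFil] at h2
  rw [← h1, C.act_comp, h2.2 (2 * j) (by omega), C.act_map_zero]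

/-- Conjecture (B) for products of curves implies the vanishing above the middle. -/
lemma vb_of_murreB0 {j n : ℕ} (hn : 2 * j < n)
    (h : ∀ P : 𝒱.Obj, IsProduct (Q0 C) P → P.dim = n → MurreB0 H P) : VB C j n := by
  intro P p hp z hz
  have hpure := isPure_part (H := H) hQ0 hp
  obtain ⟨π, hπ, h1⟩ := part_ck (H := H) hp
  have h2 := (Pool.Agent.Q28.MB.b0At_iff hπ j).1 (h P (IsPart.isProduct hp) hpure.dim π hπ j)
    n z hz hn
  rw [← h1, C.act_comp, h2, C.act_map_zero]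

/-- The bounded form of the properties. -/
lemma pvb {d : ℕ} (hW : ∀ j, 2 * j ≤ d → VW (C := C) H j)
    (hB : ∀ j n, 2 * j < n → n ≤ d → VB C j n) (j n : ℕ) (P : 𝒱.Obj)
    (p : C.A (P.prod P)) (hp : IsPart (Q0 C) n P p) (hn : n ≤ d) : PV H (N0 C) n P p j where
  big h z hz := hB j n h hn P p hp z hz
  eq h z hz h0 := by
    subst h
    exact hW j hn P p hp z hz h0
  aj h z hz := by
    have h1 : z = 0 := (Submodule.mem_bot _).1 hz
    rw [h1, C.act_map_zero]

/-- The half of the properties. -/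
lemma big_act {d : ℕ} (hB : ∀ j n, 2 * j < n → n ≤ d → VB C j n) (hd : Z.dim ≤ d) {l j : ℕ}
    {γ : C.A (Z.prod Z)} (hγ : γ ∈ Fac (Q0 C) Z l) (hl : 2 * j < l) {z : C.A Z}
    (hz : C.Deg j z) : C.act γ z = 0 := by
  refine fac_act (H := H) (fun γ hγ => ?_) hγ
  cases hγ with
  | unit c D E hc hD hE =>
    exact act_ext_zero_of_lt (C.mul_mem hD hz) (by omega)
  | part n c P p f g hp hc hf hg =>
    refine part_act (H := H) hf hz fun hcj => ?_
    exact hB (j - c) n (by omega) (by omega) P p hp _ (deg_f (H := H) hf hcj hz)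

/-- Products of curves have a decomposition with (B). -/
lemma exists_b {d : ℕ} (hB : ∀ j n, 2 * j < n → n ≤ d → VB C j n) (hZ : IsProduct (Q0 C) Z)
    (hd : Z.dim ≤ d) : ∃ π, IsCK H Z π ∧ (∀ i, Pool.Agent.Q28.MB.SatisfiesB0At π i) ∧
      ∀ i, Pool.Agent.Q28.MB.SatisfiesB1At π i := by
  obtain ⟨π, hπ, hf⟩ := exists_ck (H := H) hQ0 hZ
  refine ⟨π, hπ, fun i => ?_, fun i => ?_⟩
  · rw [Pool.Agent.Q28.MB.b0At_iff hπ]
    exact fun l x hx hl => big_act (H := H) hB hd (hf l) hl hx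
  · rw [Pool.Agent.Q28.MB.SatisfiesB1At, eq_bot_iff]
    intro x hx
    rw [hπ.mem_ckFil] at hx
    rw [Submodule.mem_bot, sum_ck hπ x]
    refine Finset.sum_eq_zero fun l _ => ?_
    by_cases hl : l < i
    · exact fac_small (H := H) hQ0 (hf l) hl hx.1
    · exact hx.2 l (by omega)

/-- Products of curves have a decomposition with (D). -/
lemma exists_d {d : ℕ} (hW : ∀ j, 2 * j ≤ d → VW (C := C) H j)
    (hB : ∀ j n, 2 * j < n → n ≤ d → VB C j n) (hZ : IsProduct (Q0 C) Z) (hd : Z.dim ≤ d) :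
    ∃ π, IsCK H Z π ∧ ∀ i, Pool.Agent.Q28.MD.SatisfiesDAt H π i := by
  obtain ⟨π, hπ, hf⟩ := exists_ck (H := H) hQ0 hZ
  refine ⟨π, hπ, fun i x hx h0 => ?_⟩
  rw [hπ.mem_ckFil]
  refine ⟨hx, fun l hl => ?_⟩
  rcases Nat.lt_or_ge (2 * i) l with h1 | h1
  · exact big_act (H := H) hB hd (hf l) h1 hx
  · exact fac_eq (N := N0 C) hQ0 (b := d) (fun j n P p hp hn => pvb hW hB j n P p hp hn) hd
      (hf l) (by omega) hx h0

/-- Homologically trivial self-correspondences act nilpotently. -/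
def NilAct (H : WeilTheoryData.{u, v, w} C K) (Z : 𝒱.Obj) : Prop :=
  ∀ γ : C.A (Z.prod Z), C.Deg Z.dim γ → H.cl γ = 0 → ∃ n : ℕ, ∀ x : C.A Z,
    (fun y => C.act γ y)^[n] x = 0

omit hC hH in
lemma noIdem (h : NilAct H Z) (i : ℕ) : Pool.Agent.Q28.MD.NoIdempotentActionAt H Z i := by
  intro γ hγ h0 hid x hx
  obtain ⟨n, hn⟩ := h γ hγ h0
  have h1 : ∀ m : ℕ, (fun y => C.act γ y)^[m + 1] x = C.act γ x := by
    intro m
    induction m with
    | zero => rfl
    | succ m ih =>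
      rw [Function.iterate_succ_apply', ih]
      exact hid x hx
  have h2 := h1 n
  rw [Function.iterate_succ_apply', hn x] at h2
  rw [← h2]
  exact C.act_map_zero γ

/-- Murre's conjecture (D) for all decompositions of products of at most `d` curves. -/
theorem d_tfae (hF : FibreProperty C) (hN : IsAbelJacobiKernel H N) (hG : Spread H N)
    (hc : Covers C) (d : ℕ) (hK : ∀ Z : 𝒱.Obj, IsProduct (Q0 C) Z → NilAct H Z) :
    List.TFAE [
      ∀ Z : 𝒱.Obj, IsProduct (Q0 C) Z → Z.dim ≤ d → MurreD H Z,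
      ∀ Z : 𝒱.Obj, IsProduct (Q0 C) Z → Z.dim ≤ d →
        ∃ π, IsCK H Z π ∧ ∀ i, Pool.Agent.Q28.MD.SatisfiesDAt H π i,
      ∀ j : ℕ, 1 ≤ j → 2 * j ≤ d → PowW H j,
      ∀ j : ℕ, 2 ≤ j → 2 * j ≤ d → PowAJ H N j] := by
  have hne : ∀ Z : 𝒱.Obj, IsProduct (Q0 C) Z → ∃ π, IsCK H Z π := fun Z hZ => by
    obtain ⟨π, hπ, -⟩ := exists_ck (H := H) hQ0 hZ
    exact ⟨π, hπ⟩
  tfae_have 1 → 2 := by
    intro h Z hZ hd
    obtain ⟨π, hπ⟩ := hne Z hZ
    exact ⟨π, hπ, fun i x hx h0 => (h Z hZ hd π hπ i x).2 ⟨hx, h0⟩⟩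
  tfae_have 2 → 1 := by
    intro h Z hZ hd π' hπ' i x
    obtain ⟨π, hπ, hD⟩ := h Z hZ hd
    constructor
    · intro hx
      exact ⟨((hπ'.mem_ckFil i 1 x).1 hx).1, Pool.Agent.Q28.MC.cl_eq_zero_of_mem hπ' hx⟩
    · rintro ⟨hx, h0⟩
      exact (Pool.Agent.Q28.MD.main C H).2.1 Z |>.2 i (noIdem (hK Z hZ) i) π π' hπ hπ' (hD i) x
        hx h0
  tfae_have 1 → 3 := by
    intro h j hj hjd
    exact (vw_iff_pow hc hj).1 (vw_of_murreD fun P hP hdim => h P hP (by omega))
  tfae_have 3 → 4 := by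
    intro h j hj hjd
    exact (vaj_iff_pow hN hc (by omega)).1 (aj_of_vw hG (by omega)
      ((vw_iff_pow hc (by omega)).2 (h j (by omega) hjd)))
  tfae_have 4 → 2 := by
    intro h Z hZ hd
    have h1 : ∀ j, 2 ≤ j → j ≤ d / 2 → VAJ (C := C) H N j := fun j hj hjd =>
      (vaj_iff_pow hN hc (by omega)).2 (h j hj (by omega))
    have h2 := w_of_aj hF hN h1
    exact exists_d (fun j hj => (h2 j (by omega)).1) (fun j n hn hnd => (h2 j (by omega)).2 n hn)
      hZ hd
  tfae_finish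

/-- The second half of (B). -/
lemma murreB1_of (hK : NilAct H Z) (hZ : IsProduct (Q0 C) Z) : MurreB1 H Z := by
  obtain ⟨π, hπ, hf⟩ := exists_ck (H := H) hQ0 hZ
  intro π' hπ' i
  refine ((Pool.Agent.Q28.MB.main C H).1 Z i (noIdem hK i) π π' hπ hπ').2 ?_
  rw [Pool.Agent.Q28.MB.SatisfiesB1At, eq_bot_iff]
  intro x hx
  rw [hπ.mem_ckFil] at hx
  rw [Submodule.mem_bot, sum_ck hπ x]
  refine Finset.sum_eq_zero fun l _ => ?_
  by_cases hl : l < i
  · exact fac_small (H := H) hQ0 (hf l) hl hx.1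
  · exact hx.2 l (by omega)

/-- The first half of (B) for all decompositions. -/
lemma murreB0_of (hK : NilAct H Z) {π : ℕ → C.A (Z.prod Z)} (hπ : IsCK H Z π)
    (h : ∀ i, Pool.Agent.Q28.MB.SatisfiesB0At π i) : MurreB0 H Z := fun π' hπ' i =>
  ((Pool.Agent.Q28.MB.main C H).1 Z i (noIdem hK i) π π' hπ hπ').1 (h i)

/-- Murre's conjecture (B) for all decompositions of products of at most `d + 1` curves. -/
theorem b_of_d (hF : FibreProperty C) (hN : IsAbelJacobiKernel H N) (hc : Covers C) (d : ℕ)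
    (hK : ∀ Z : 𝒱.Obj, IsProduct (Q0 C) Z → NilAct H Z)
    (h : ∀ j : ℕ, 2 ≤ j → 2 * j ≤ d → PowAJ H N j) (Z : 𝒱.Obj) (hZ : IsProduct (Q0 C) Z)
    (hd : Z.dim ≤ d + 1) : MurreB0 H Z ∧ MurreB1 H Z := by
  have h1 : ∀ j, 2 ≤ j → j ≤ d / 2 → VAJ (C := C) H N j := fun j hj hjd =>
    (vaj_iff_pow hN hc (by omega)).2 (h j hj (by omega))
  have h2 := w_of_aj hF hN h1
  obtain ⟨π, hπ, hb, -⟩ := exists_b (H := H) (d := d + 1)
    (fun j n hn hnd => (h2 j (by omega)).2 n hn) hZ hd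
  exact ⟨murreB0_of (hK Z hZ) hπ hb, murreB1_of (hK Z hZ) hZ⟩

/-- The condition for powers of one curve in weight `2 j + 1`. -/
def PowV (C : TheoryData.{u, v, 0} 𝒱 ℚ) (j : ℕ) : Prop :=
  ∀ (T : 𝒱.Obj) (o : C.A T), T.dim = 1 → C.Deg 1 o → HasDegree C o 1 →
    ∀ z : C.A (pw T (2 * j)), C.Deg j z → C.act (pwp o (2 * j)) z = 0

/-- The condition for powers of one curve, algebraically trivial classes in weight `2 j`. -/
def PowAlg (H : WeilTheoryData.{u, v, w} C K) (j : ℕ) : Prop :=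
  ∀ (T : 𝒱.Obj) (o : C.A T), T.dim = 1 → C.Deg 1 o → HasDegree C o 1 →
    ∀ z ∈ AlgT H (pw T (2 * j - 1)) j, C.act (pwp o (2 * j - 1)) z = 0

lemma vb_iff_pow (hc : Covers C) {j : ℕ} : VB C j (2 * j + 1) ↔ PowV C j := by
  constructor
  · intro h T o hT ho hd z hz
    exact h _ _ (isPart_pw hT ho hd (2 * j)) z hz
  · intro h
    exact vb_pow (H := H) hc fun T o hT ho hd z hz => h T o hT ho hd z hz

lemma valg_iff_pow (hc : Covers C) {j : ℕ} (hj : 1 ≤ j) : VAlg (C := C) H j ↔ PowAlg H j := by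
  constructor
  · intro h T o hT ho hd z hz
    refine h _ _ ?_ z hz
    have h1 := isPart_pw hT ho hd (2 * j - 1)
    have e : 2 * j - 1 + 1 = 2 * j := by omega
    rwa [e] at h1
  · intro h
    exact valg_pow hc (m := 2 * j - 1) (by omega) fun T o hT ho hd z hz => h T o hT ho hd z hz

lemma valg_zero : VAlg (C := C) H 0 := by
  intro P p hp z hz
  have h1 := (isPure_part (H := H) hQ0 hp).pos
  omega

/-- Murre's conjecture (B) for all decompositions of products of at most `d` curves. -/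
theorem b_tfae (hF : FibreProperty C) (hc : Covers C) (d : ℕ)
    (hK : ∀ Z : 𝒱.Obj, IsProduct (Q0 C) Z → NilAct H Z) :
    List.TFAE [
      ∀ Z : 𝒱.Obj, IsProduct (Q0 C) Z → Z.dim ≤ d → MurreB0 H Z ∧ MurreB1 H Z,
      ∀ Z : 𝒱.Obj, IsProduct (Q0 C) Z → Z.dim ≤ d →
        ∃ π, IsCK H Z π ∧ ∀ i, Pool.Agent.Q28.MB.SatisfiesB0At π i,
      ∀ j : ℕ, 1 ≤ j → 2 * j + 1 ≤ d → PowV C j,
      ∀ j : ℕ, 1 ≤ j → 2 * j + 1 ≤ d → PowAlg H j] := by
  have hne : ∀ Z : 𝒱.Obj, IsProduct (Q0 C) Z → ∃ π, IsCK H Z π := fun Z hZ => by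
    obtain ⟨π, hπ, -⟩ := exists_ck (H := H) hQ0 hZ
    exact ⟨π, hπ⟩
  tfae_have 1 → 2 := by
    intro h Z hZ hd
    obtain ⟨π, hπ⟩ := hne Z hZ
    exact ⟨π, hπ, fun i => (h Z hZ hd).1 π hπ i⟩
  tfae_have 2 → 1 := by
    intro h Z hZ hd
    obtain ⟨π, hπ, hb⟩ := h Z hZ hd
    exact ⟨murreB0_of (hK Z hZ) hπ hb, murreB1_of (hK Z hZ) hZ⟩
  tfae_have 1 → 3 := by
    intro h j hj hjd
    exact (vb_iff_pow (H := H) hc).1 (vb_of_murreB0 (H := H) (by omega)
      fun P hP hdim => (h P hP (by omega)).1)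
  tfae_have 3 → 4 := by
    intro h j hj hjd
    exact (valg_iff_pow hc hj).1 (alg_of_vb ((vb_iff_pow (H := H) hc).2 (h j hj hjd)))
  tfae_have 4 → 2 := by
    intro h Z hZ hd
    have h1 : ∀ j ≤ (d - 1) / 2, VAlg (C := C) H j := by
      intro j hj
      rcases Nat.eq_zero_or_pos j with rfl | hj0
      · exact valg_zero
      · exact (valg_iff_pow hc hj0).2 (h j hj0 (by omega))
    have h2 := vb_of_alg_all (H := H) hF h1
    obtain ⟨π, hπ, hb, -⟩ := exists_b (H := H) (d := d)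
      (fun j n hn hnd => h2 j (by omega) n hn) hZ hd
    exact ⟨π, hπ, hb⟩
  tfae_finish

/-! ### Motives -/

/-- The varieties with a Tate twist in a product of curves. -/
def AbT (C : TheoryData.{u, v, 0} 𝒱 ℚ) (X : 𝒱.Obj) : Prop :=
  ∃ (Z : 𝒱.Obj) (c : ℕ), IsProduct (Q0 C) Z ∧ Pool.Agent.Q28.MM.Summand C c X Z

lemma lowers_of {d : ℕ} (hW : ∀ j, 2 * j ≤ 2 * d → VW (C := C) H j)
    (hB : ∀ j n, 2 * j < n → n ≤ 2 * d → VB C j n) (hZ : IsProduct (Q0 C) Z) (hd : Z.dim ≤ d) :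
    ∃ π, IsCK H Z π ∧ Pool.Agent.Q28.MM.SatisfiesDAt H (Pool.Agent.Q28.MM.squareCK π) Z.dim := by
  obtain ⟨π, hπ, hf⟩ := exists_ck (H := H) hQ0 hZ
  refine ⟨π, hπ, (Pool.Agent.Q28.MC.satisfiesDAt_square_iff hπ).2 fun γ hγ h0 a b hab => ?_⟩
  rw [comp_assoc C]
  refine comp_comp_zero (N := N0 C) hQ0 (b := 2 * d)
    (fun j n P p hp hn => pvb hW hB j n P p hp hn) (by omega) (i := 0) (j := 0) (hf a) (hf b)
    (gr_congr (by push_cast; ring) hγ) ?_
  rcases Nat.lt_or_ge a b with h | h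
  · exact Or.inl (by omega)
  · exact Or.inr ⟨by omega, h0⟩

lemma vw_of_murre {j : ℕ} (h : ∀ (P : 𝒱.Obj) (p : C.A (P.prod P)), IsProduct (Q0 C) P →
    Pool.Agent.Q28.MM.IsProjector p → Pool.Agent.Q28.MM.Murre H p) : VW (C := C) H j := by
  intro P p hp z hz h0
  have hpure := isPure_part (H := H) hQ0 hp
  obtain ⟨⟨ρ, hρ, hb, hdd⟩, hcc⟩ := h P p (IsPart.isProduct hp) ⟨hpure.mem, hpure.idem⟩
  have hdim : P.dim = 2 * j := hpure.dim
  let ρ' : ℕ → C.A (P.prod P) := fun i => if i = 2 * j then p else 0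
  have hρ' : Pool.Agent.Q28.MM.IsMotiveCK H p ρ' := by
    refine ⟨fun i => ?_, fun i hi => ?_, fun i => ?_, fun i i' hii => ?_, ?_, fun i a ha => ?_,
      fun i m a hm ha => ?_⟩
    · by_cases hi : i = 2 * j
      · simp only [ρ', hi, if_true]; exact hpure.mem
      · simp only [ρ', hi, if_false]; exact Submodule.zero_mem _
    · have hi' : i ≠ 2 * j := by
        have := hpure.pos
        omega
      simp only [ρ', hi', if_false]
    · by_cases hi : i = 2 * j
      · simp only [ρ', hi, if_true]; exact hpure.idem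
      · simp only [ρ', hi, if_false]; exact zero_comp C _
    · by_cases hi : i = 2 * j
      · have hi' : i' ≠ 2 * j := fun h => hii (by omega)
        simp only [ρ', hi, hi', if_false]; exact comp_zero C _
      · simp only [ρ', hi, if_false]; exact zero_comp C _
    · rw [Finset.sum_ite_eq' (Finset.range (2 * P.dim + 1)) (2 * j) (fun _ => p),
        if_pos (Finset.mem_range.2 (by omega))]
    · by_cases hi : i = 2 * j
      · simp only [ρ', hi, if_true]
      · simp only [ρ', hi, if_false]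
        rw [map_zero, TheoryData.act_zero]
        exact (hpure.kills i (by exact_mod_cast hi) a ha).symm
    · by_cases hi : i = 2 * j
      · simp only [ρ', hi, if_true]
        exact hpure.kills m (by rw [hi] at hm; exact_mod_cast hm) a ha
      · simp only [ρ', hi, if_false]
        rw [map_zero, TheoryData.act_zero]
  have h1 := hcc ρ ρ' hρ hρ' j 1
  have h2 : C.act p z ∈ ckFil C ρ j 1 := by
    refine ⟨z, hz, ?_⟩
    rw [TheoryData.actL_apply, ← hρ.sum, act_sum, act_sum]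
    refine Finset.sum_subset ?_ ?_
    · intro l hl
      rw [Finset.mem_range] at *
      omega
    · intro l hl hl'
      rw [Finset.mem_range] at hl hl'
      rcases Nat.lt_or_ge (2 * j) l with h3 | h3
      · exact hb j l z hz h3
      · have e : l = 2 * j := by omega
        rw [e]
        exact hdd j z hz h0
  rw [h1] at h2
  obtain ⟨y, hy, h3⟩ := h2
  rw [TheoryData.actL_apply] at h3
  have h4 : ∑ l ∈ Finset.range (2 * j + 1 - 1), ρ' l = 0 := by
    refine Finset.sum_eq_zero fun l hl => ?_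
    rw [Finset.mem_range] at hl
    have hl' : l ≠ 2 * j := by omega
    simp only [ρ', hl', if_false]
  rw [h4, TheoryData.act_zero] at h3
  exact h3.symm

/-- Murre's conjectures for the motives of abelian type. -/
theorem m_tfae (hF : FibreProperty C) (hc : Covers C) :
    List.TFAE [
      ∀ (X : 𝒱.Obj) (p : C.A (X.prod X)), AbT C X → Pool.Agent.Q28.MM.IsProjector p →
        Pool.Agent.Q28.MM.Murre H p,
      ∀ Z : 𝒱.Obj, IsProduct (Q0 C) Z → MurreD H Z,
      ∀ j : ℕ, 1 ≤ j → PowW H j] := by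
  have hself : ∀ Z : 𝒱.Obj, IsProduct (Q0 C) Z → AbT C Z := fun Z hZ =>
    ⟨Z, 0, hZ, dg C Z, dg C Z, by simpa using dg_mem C Z, by simpa using dg_mem C Z,
      dg_comp C _⟩
  have all : (∀ j : ℕ, 1 ≤ j → PowW H j) → (∀ j, VW (C := C) H j) ∧
      ∀ j n, 2 * j < n → VB C j n := by
    intro h
    have hW : ∀ j, VW (C := C) H j := fun j => by
      rcases Nat.eq_zero_or_pos j with rfl | hj
      · exact vw_zero
      · exact (vw_iff_pow hc hj).2 (h j hj)
    exact ⟨hW, fun j n hn => vb_of_w (H := H) hF (d := j) (fun i _ => hW i) j le_rfl n hn⟩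
  tfae_have 1 → 3 := by
    intro h j hj
    exact (vw_iff_pow hc hj).1 (vw_of_murre fun P p hP hp => h P p (hself P hP) hp)
  tfae_have 2 → 3 := by
    intro h j hj
    exact (vw_iff_pow hc hj).1 (vw_of_murreD fun P hP _ => h P hP)
  tfae_have 3 → 1 := by
    rintro h X p ⟨Z, c, hZ, hs⟩ hp
    obtain ⟨hW, hB⟩ := all h
    exact ((Pool.Agent.Q28.MM.main C H).2.1 Z X c hs
      (lowers_of (d := Z.dim) (fun j _ => hW j) (fun j n hn _ => hB j n hn) hZ le_rfl)).2 p hp
  tfae_have 3 → 2 := by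
    intro h Z hZ
    obtain ⟨hW, hB⟩ := all h
    obtain ⟨π, hπ, hD⟩ := lowers_of (H := H) (d := Z.dim) (fun j _ => hW j)
      (fun j n hn _ => hB j n hn) hZ le_rfl
    exact ((Pool.Agent.Q28.MD.main C H).1 Z π hπ).2.2 hD |>.1
  tfae_finish

/-- The version for algebraically trivial classes, in bounded dimensions. -/
theorem m_of_aj (hF : FibreProperty C) (hN : IsAbelJacobiKernel H N) (hc : Covers C) (d : ℕ)
    (h : ∀ j : ℕ, 2 ≤ j → j ≤ d → PowAJ H N j) {c : ℕ} (hZ : IsProduct (Q0 C) Z)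
    (hd : Z.dim ≤ d) (hs : Pool.Agent.Q28.MM.Summand C c X Z) {p : C.A (X.prod X)}
    (hp : Pool.Agent.Q28.MM.IsProjector p) : Pool.Agent.Q28.MM.Murre H p := by
  have h1 : ∀ j, 2 ≤ j → j ≤ d → VAJ (C := C) H N j := fun j hj hjd =>
    (vaj_iff_pow hN hc (by omega)).2 (h j hj hjd)
  have h2 := w_of_aj hF hN h1
  exact ((Pool.Agent.Q28.MM.main C H).2.1 Z X c hs
    (lowers_of (d := d) (fun j hj => (h2 j (by omega)).1)
      (fun j n hn hnd => (h2 j (by omega)).2 n hn) hZ hd)).2 p hp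

lemma powW_iff_powAJ (hF : FibreProperty C) (hN : IsAbelJacobiKernel H N) (hG : Spread H N)
    (hc : Covers C) : (∀ j : ℕ, 1 ≤ j → PowW H j) ↔ ∀ j : ℕ, 2 ≤ j → PowAJ H N j :=
  (bb_tfae hF hN hG hc).out 2 3

end Pool.Agent.Q187.MC
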