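import Pool.Agent.Q187.MC.Stmt
import Pool.Agent.Q28.MM.Defs
import Pool.Agent.Q28.MD.Defs
import Pool.Agent.Q28.MB.Defs

/-!
# Murre's conjectures for products of curves: definitions
-/

open CategoryTheory AlgebraicGeometry

universe u v w

namespace Pool.Agent.Q187.MCS

open Pool.Agent.H914 Pool.Agent.H914.VarClass Pool.Agent.H914.VarClass.Obj Pool.Agent.W492.BB
  Pool.Agent.W550.Corr Pool.Agent.TH133 Pool.Agent.Q187.AJS Pool.Agent.Q187.BCS

variable {k : Type u} [Field k] {𝒱 : VarClass k} (C : TheoryData.{u, v, 0} 𝒱 ℚ) {K : Type w}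
  [Field K] (H : WeilTheoryData.{u, v, w} C K)

/-- Homologically trivial self-correspondences of degree zero of `Z` act nilpotently on the Chow
groups of `Z`. (For products of curves this holds by the theorem of Kimura.) -/
def NilpotentAction (Z : 𝒱.Obj) : Prop :=
  ∀ γ : C.A (Z.prod Z), C.Deg Z.dim γ → Triv C H γ → ∃ n : ℕ, ∀ x : C.A Z,
    (fun y => C.act γ y)^[n] x = 0

/-- For every curve `T` the homologically trivial classes of codimension `j` in the motive
`h^1(T)^{⊗ 2 j}` are zero, `j ≥ 1`. -/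
def MiddleVanishing (j : ℕ) : Prop :=
  ∀ (T : 𝒱.Obj) (o : C.A T), T.dim = 1 → DegreeOne C o → ∀ z : C.A (pow T (2 * j - 1)),
    C.Deg j z → Triv C H z → C.act (oddPow C o (2 * j - 1)) z = 0

/-- For every curve `T` the algebraically trivial classes of codimension `j` in the motive
`h^1(T)^{⊗ 2 j}` are zero, `j ≥ 1`. -/
def AlgebraicMiddleVanishing (j : ℕ) : Prop :=
  ∀ (T : 𝒱.Obj) (o : C.A T), T.dim = 1 → DegreeOne C o → ∀ z : C.A (pow T (2 * j - 1)),
    AlgTriv C H j z → C.act (oddPow C o (2 * j - 1)) z = 0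

/-- For every curve `T` the Chow group `CH^j` of the motive `h^1(T)^{⊗(2 j + 1)}` is zero. -/
def NextVanishing (j : ℕ) : Prop :=
  ∀ (T : 𝒱.Obj) (o : C.A T), T.dim = 1 → DegreeOne C o → ∀ z : C.A (pow T (2 * j)),
    C.Deg j z → C.act (oddPow C o (2 * j)) z = 0

/-- For every curve `T` the Abel-Jacobi map is injective on the algebraically trivial classes of
codimension `j` in the motive `h^1(T)^{⊗(2 j - 1)}`, `j ≥ 1`. -/
def AbelJacobiInjective (N : Fam C) (j : ℕ) : Prop :=
  ∀ (T : 𝒱.Obj) (o : C.A T), T.dim = 1 → DegreeOne C o → ∀ z : C.A (pow T (2 * j - 2)),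
    AlgTriv C H j z → N.In j z → C.act (oddPow C o (2 * j - 2)) z = 0

end Pool.Agent.Q187.MCS
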