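import Pool.Agent.Q187.MC.Conv
import Pool.Agent.Q187.MC.Mur
import Pool.Agent.Q187.MC.StmtM

/-!
# Murre's conjectures in terms of the definitions of the statement
-/

open CategoryTheory AlgebraicGeometry

universe u v w

namespace Pool.Agent.Q187.MCS

open Pool.Agent.H914 Pool.Agent.H914.VarClass Pool.Agent.H914.VarClass.Obj Pool.Agent.W492.BB
  Pool.Agent.W550.Corr Pool.Agent.Q187.AJS Pool.Agent.Q187.BCS

open Pool.Agent.TH133 hiding tens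

set_option linter.unusedSectionVars false
set_option linter.unusedVariables false

variable {k : Type u} [Field k] {𝒱 : VarClass k}

variable {C : TheoryData.{u, v, 0} 𝒱 ℚ} [hC : IsChowProj C] {K : Type w} [Field K]
  {H : WeilTheoryData.{u, v, w} C K} [hH : IsWeilProj H] {X Y Z W T P S R : 𝒱.Obj}
  {N : Fam C}

lemma nil_conv (hK : ∀ Z : 𝒱.Obj, IsProductOfCurves Z → NilpotentAction C H Z) :
    ∀ Z : 𝒱.Obj, AJ.IsProduct (MC.Q0 C) Z → MC.NilAct H Z := fun Z hZ γ hγ h0 =>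
  hK Z (product_iff.2 hZ) γ hγ h0

include hC

lemma middle_conv {j : ℕ} : MiddleVanishing C H j ↔ MC.PowW H j := powW_conv

lemma aj_conv {j : ℕ} : AbelJacobiInjective C H N j ↔ MC.PowAJ H N j := powAJ_conv

lemma next_conv {j : ℕ} : NextVanishing C j ↔ MC.PowV C j := by
  constructor
  · intro h T o hT ho hd z hz
    have h1 := h T o hT ((degreeOne_of_curve hT).2 ⟨ho, hd⟩) z hz
    rw [oddPow_eq] at h1
    exact h1
  · intro h T o hT ho z hz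
    rw [oddPow_eq]
    exact h T o hT ((degreeOne_of_curve hT).1 ho).1 ((degreeOne_of_curve hT).1 ho).2 z hz

lemma alg_conv {j : ℕ} : AlgebraicMiddleVanishing C H j ↔ MC.PowAlg H j := by
  constructor
  · intro h T o hT ho hd z hz
    have h1 := h T o hT ((degreeOne_of_curve hT).2 ⟨ho, hd⟩) z hz
    rw [oddPow_eq] at h1
    exact h1
  · intro h T o hT ho z hz
    rw [oddPow_eq]
    exact h T o hT ((degreeOne_of_curve hT).1 ho).1 ((degreeOne_of_curve hT).1 ho).2 z hz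

include hH

theorem main_d (hN : IsAbelJacobiKernel C H N) (hF : FibreProperty C)
    (hG : SpreadProperty C H N) (hc : CommonCovers C)
    (hK : ∀ Z : 𝒱.Obj, IsProductOfCurves Z → NilpotentAction C H Z) (d : ℕ) :
    List.TFAE [
      ∀ Z : 𝒱.Obj, IsProductOfCurves Z → Z.dim ≤ d → MurreD H Z,
      ∀ Z : 𝒱.Obj, IsProductOfCurves Z → Z.dim ≤ d →
        ∃ π, IsCK H Z π ∧ ∀ i, Q28.MD.SatisfiesDAt H π i,
      ∀ j : ℕ, 1 ≤ j → 2 * j ≤ d → MiddleVanishing C H j,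
      ∀ j : ℕ, 2 ≤ j → 2 * j ≤ d → AbelJacobiInjective C H N j] ∧
    ((∀ Z : 𝒱.Obj, IsProductOfCurves Z → Z.dim ≤ d → MurreD H Z) →
      ∀ Z : 𝒱.Obj, IsProductOfCurves Z → Z.dim ≤ d + 1 → MurreB0 H Z ∧ MurreB1 H Z) := by
  have h := MC.d_tfae (fibre_conv hF) (kernel_conv hN) (spread_conv hG) (covers_conv hc) d
    (nil_conv hK)
  have e1 : (∀ Z : 𝒱.Obj, IsProductOfCurves Z → Z.dim ≤ d → MurreD H Z) ↔
      ∀ Z : 𝒱.Obj, AJ.IsProduct (MC.Q0 C) Z → Z.dim ≤ d → MurreD H Z :=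
    forall_congr' fun Z => by rw [product_iff (C := C)]
  have e2 : (∀ Z : 𝒱.Obj, IsProductOfCurves Z → Z.dim ≤ d →
        ∃ π, IsCK H Z π ∧ ∀ i, Q28.MD.SatisfiesDAt H π i) ↔
      ∀ Z : 𝒱.Obj, AJ.IsProduct (MC.Q0 C) Z → Z.dim ≤ d →
        ∃ π, IsCK H Z π ∧ ∀ i, Q28.MD.SatisfiesDAt H π i :=
    forall_congr' fun Z => by rw [product_iff (C := C)]
  have e3 : (∀ j : ℕ, 1 ≤ j → 2 * j ≤ d → MiddleVanishing C H j) ↔
      ∀ j : ℕ, 1 ≤ j → 2 * j ≤ d → MC.PowW H j :=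
    forall_congr' fun j => forall_congr' fun _ => forall_congr' fun _ => middle_conv
  have e4 : (∀ j : ℕ, 2 ≤ j → 2 * j ≤ d → AbelJacobiInjective C H N j) ↔
      ∀ j : ℕ, 2 ≤ j → 2 * j ≤ d → MC.PowAJ H N j :=
    forall_congr' fun j => forall_congr' fun _ => forall_congr' fun _ => aj_conv
  rw [e1, e2, e3, e4]
  refine ⟨h, fun h1 Z hZ hd => ?_⟩
  exact MC.b_of_d (fibre_conv hF) (kernel_conv hN) (covers_conv hc) d (nil_conv hK)
    ((h.out 0 3).1 h1) Z (product_iff.1 hZ) hd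

theorem main_b (hF : FibreProperty C) (hc : CommonCovers C)
    (hK : ∀ Z : 𝒱.Obj, IsProductOfCurves Z → NilpotentAction C H Z) (d : ℕ) :
    List.TFAE [
      ∀ Z : 𝒱.Obj, IsProductOfCurves Z → Z.dim ≤ d → MurreB0 H Z ∧ MurreB1 H Z,
      ∀ Z : 𝒱.Obj, IsProductOfCurves Z → Z.dim ≤ d →
        ∃ π, IsCK H Z π ∧ ∀ i, Q28.MB.SatisfiesB0At π i,
      ∀ j : ℕ, 1 ≤ j → 2 * j + 1 ≤ d → NextVanishing C j,
      ∀ j : ℕ, 1 ≤ j → 2 * j + 1 ≤ d → AlgebraicMiddleVanishing C H j] := by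
  have h := MC.b_tfae (H := H) (fibre_conv hF) (covers_conv hc) d (nil_conv hK)
  have e1 : (∀ Z : 𝒱.Obj, IsProductOfCurves Z → Z.dim ≤ d → MurreB0 H Z ∧ MurreB1 H Z) ↔
      ∀ Z : 𝒱.Obj, AJ.IsProduct (MC.Q0 C) Z → Z.dim ≤ d → MurreB0 H Z ∧ MurreB1 H Z :=
    forall_congr' fun Z => by rw [product_iff (C := C)]
  have e2 : (∀ Z : 𝒱.Obj, IsProductOfCurves Z → Z.dim ≤ d →
        ∃ π, IsCK H Z π ∧ ∀ i, Q28.MB.SatisfiesB0At π i) ↔
      ∀ Z : 𝒱.Obj, AJ.IsProduct (MC.Q0 C) Z → Z.dim ≤ d →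
        ∃ π, IsCK H Z π ∧ ∀ i, Q28.MB.SatisfiesB0At π i :=
    forall_congr' fun Z => by rw [product_iff (C := C)]
  have e3 : (∀ j : ℕ, 1 ≤ j → 2 * j + 1 ≤ d → NextVanishing C j) ↔
      ∀ j : ℕ, 1 ≤ j → 2 * j + 1 ≤ d → MC.PowV C j :=
    forall_congr' fun j => forall_congr' fun _ => forall_congr' fun _ => next_conv
  have e4 : (∀ j : ℕ, 1 ≤ j → 2 * j + 1 ≤ d → AlgebraicMiddleVanishing C H j) ↔
      ∀ j : ℕ, 1 ≤ j → 2 * j + 1 ≤ d → MC.PowAlg H j :=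
    forall_congr' fun j => forall_congr' fun _ => forall_congr' fun _ => alg_conv
  rw [e1, e2, e3, e4]
  exact h

theorem main_m (hF : FibreProperty C) (hc : CommonCovers C) :
    List.TFAE [
      ∀ (X Z : 𝒱.Obj) (c : ℕ) (p : C.A (X.prod X)), IsProductOfCurves Z →
        Q28.MM.Summand C c X Z → Q28.MM.IsProjector p → Q28.MM.Murre H p,
      ∀ Z : 𝒱.Obj, IsProductOfCurves Z → MurreD H Z,
      ∀ j : ℕ, 1 ≤ j → MiddleVanishing C H j] ∧
    ∀ N : Fam C, IsAbelJacobiKernel C H N →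
      (SpreadProperty C H N → ((∀ j : ℕ, 1 ≤ j → MiddleVanishing C H j) ↔
        ∀ j : ℕ, 2 ≤ j → AbelJacobiInjective C H N j)) ∧
      ∀ d : ℕ, (∀ j : ℕ, 2 ≤ j → j ≤ d → AbelJacobiInjective C H N j) →
        ∀ (X Z : 𝒱.Obj) (c : ℕ) (p : C.A (X.prod X)), IsProductOfCurves Z → Z.dim ≤ d →
          Q28.MM.Summand C c X Z → Q28.MM.IsProjector p → Q28.MM.Murre H p := by
  have h := MC.m_tfae (H := H) (fibre_conv hF) (covers_conv hc)
  have e1 : (∀ (X Z : 𝒱.Obj) (c : ℕ) (p : C.A (X.prod X)), IsProductOfCurves Z →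
        Q28.MM.Summand C c X Z → Q28.MM.IsProjector p → Q28.MM.Murre H p) ↔
      ∀ (X : 𝒱.Obj) (p : C.A (X.prod X)), MC.AbT C X → Q28.MM.IsProjector p →
        Q28.MM.Murre H p := by
    constructor
    · rintro h X p ⟨Z, c, hZ, hs⟩ hp
      exact h X Z c p (product_iff.2 hZ) hs hp
    · intro h X Z c p hZ hs hp
      exact h X p ⟨Z, c, product_iff.1 hZ, hs⟩ hp
  have e2 : (∀ Z : 𝒱.Obj, IsProductOfCurves Z → MurreD H Z) ↔
      ∀ Z : 𝒱.Obj, AJ.IsProduct (MC.Q0 C) Z → MurreD H Z :=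
    forall_congr' fun Z => by rw [product_iff (C := C)]
  have e3 : (∀ j : ℕ, 1 ≤ j → MiddleVanishing C H j) ↔ ∀ j : ℕ, 1 ≤ j → MC.PowW H j :=
    forall_congr' fun j => forall_congr' fun _ => middle_conv
  rw [e1, e2, e3]
  refine ⟨h, fun N hN => ⟨fun hG => ?_, fun d hd X Z c p hZ hdim hs hp => ?_⟩⟩
  · rw [MC.powW_iff_powAJ (fibre_conv hF) (kernel_conv hN) (spread_conv hG) (covers_conv hc)]
    exact forall_congr' fun j => forall_congr' fun _ => aj_conv.symm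
  · exact MC.m_of_aj (fibre_conv hF) (kernel_conv hN) (covers_conv hc) d
      (fun j hj hjd => aj_conv.1 (hd j hj hjd)) (product_iff.1 hZ) hdim hs hp

end Pool.Agent.Q187.MCS
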