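import Pool.Agent.Q187.MC.Pow
import Pool.Agent.Q187.AJ.Main

/-!
# Filtrations on the Chow groups of the varieties dominated by products of curves
-/

open CategoryTheory AlgebraicGeometry

universe u v w

namespace Pool.Agent.Q187.MC

open Pool.Agent.H914 Pool.Agent.H914.VarClass Pool.Agent.H914.VarClass.Obj Pool.Agent.W492.BB
  Pool.Agent.W550.Corr Pool.Agent.TH133 Pool.Agent.Y148.BB Pool.Agent.Q187.AJ Pool.Agent.Q187.BC
  Pool.Agent.Q28.GL

set_option linter.unusedSectionVars false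
set_option linter.unusedVariables false

variable {k : Type u} [Field k] {𝒱 : VarClass k}

variable {C : TheoryData.{u, v, 0} 𝒱 ℚ} [hC : IsChowProj C] {K : Type w} [Field K]
  {H : WeilTheoryData.{u, v, w} C K} [hH : IsWeilProj H] {X Y Z Z' W T T' P S R B M P' R' : 𝒱.Obj}
  {N : ∀ X : 𝒱.Obj, ℕ → Submodule ℚ (C.A X)} {Q : ∀ S : 𝒱.Obj, C.A (S.prod S) → Prop}

/-- The zero family. -/
def N0 (C : TheoryData.{u, v, 0} 𝒱 ℚ) : ∀ X : 𝒱.Obj, ℕ → Submodule ℚ (C.A X) := fun _ _ => ⊥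

include hC hH

lemma pv0 (hW : ∀ j, VW (C := C) H j) (hB : ∀ j n, 2 * j < n → VB C j n) (j n : ℕ) (P : 𝒱.Obj)
    (p : C.A (P.prod P)) (hp : IsPart (Q0 C) n P p) : PV H (N0 C) n P p j where
  big h z hz := hB j n h P p hp z hz
  eq h z hz h0 := by
    subst h
    exact hW j P p hp z hz h0
  aj h z hz := by
    have h1 : z = 0 := (Submodule.mem_bot _).1 hz
    rw [h1, C.act_map_zero]

/-- Correspondences between the pieces raising the weight too much are zero. -/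
lemma comp_comp_zero' (hQ : ∀ S q, Q S q → IsTranscendental H S q)
    (hPV : ∀ (j n : ℕ) (P : 𝒱.Obj) (p : C.A (P.prod P)), IsPart Q n P p → PV H N n P p j)
    {l l' i j : ℕ} {γ' : C.A (Z'.prod Z')} {γ : C.A (Z.prod Z)} (hγ' : γ' ∈ Fac Q Z' l')
    (hγ : γ ∈ Fac Q Z l) {M : C.A (Z'.prod Z)} (hM : C.Deg (Z'.dim + (i : ℤ) - j) M)
    (h : l' + 2 * i < l + 2 * j ∨ (l' + 2 * i = l + 2 * j ∧ H.cl M = 0)) :
    C.comp γ' (C.comp M γ) = 0 := by
  by_cases hl' : 2 * Z'.dim < l'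
  · rw [fac_zero_of_lt hQ hγ' hl', zero_comp]
  have h1 : C.act (tens C (tp C γ') γ) M = C.comp γ' (C.comp M γ) := by
    rw [act_tens C (ch_comm C), tp_tp, comp_assoc C]
  rw [← h1]
  have h2 := fac_tens hQ (fac_tp hQ hγ') hγ
  by_cases hneg : Z'.dim + i < j
  · have h3 : M ∈ C.gr (Z'.prod Z) (Z'.dim + (i : ℤ) - j) := hM
    rw [C.gr_neg _ _ (by omega), Submodule.mem_bot] at h3
    rw [h3, C.act_map_zero]
  have hM' : C.Deg ((Z'.dim + i - j : ℕ) : ℤ) M := by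
    have e : ((Z'.dim + i - j : ℕ) : ℤ) = Z'.dim + (i : ℤ) - j := by omega
    rw [e]; exact hM
  rcases h with h | ⟨h, h0⟩
  · exact fac_big hQ (b := (Z'.prod Z).dim) (fun j n P p hp _ => hPV j n P p hp) le_rfl h2
      (by omega) hM'
  · exact fac_eq hQ (b := (Z'.prod Z).dim) (fun j n P p hp _ => hPV j n P p hp) le_rfl h2
      (by omega) hM' h0

omit hH in
/-- The filtration. -/
def Fil (H : WeilTheoryData.{u, v, w} C K) (X : 𝒱.Obj) (j ν : ℕ) : Submodule ℚ (C.A X) where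
  carrier := {z | z ∈ C.gr X j ∧ ∀ (Z : 𝒱.Obj) (π : ℕ → C.A (Z.prod Z)), IsProduct (Q0 C) Z →
    IsCK H Z π → (∀ l, π l ∈ Fac (Q0 C) Z l) → ∀ (i : ℕ) (Γ : C.A (X.prod Z)),
    C.Deg (X.dim + i - j) Γ → ∀ l, 2 * i < l + ν → C.act (π l) (C.act Γ z) = 0}
  zero_mem' := ⟨Submodule.zero_mem _, fun Z π hZ hπ hf i Γ hΓ l hl => by
    rw [C.act_map_zero, C.act_map_zero]⟩
  add_mem' {a b} ha hb := ⟨Submodule.add_mem _ ha.1 hb.1, fun Z π hZ hπ hf i Γ hΓ l hl => by
    rw [act_map_add, act_map_add, ha.2 Z π hZ hπ hf i Γ hΓ l hl, hb.2 Z π hZ hπ hf i Γ hΓ l hl,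
      add_zero]⟩
  smul_mem' c a ha := ⟨Submodule.smul_mem _ _ ha.1, fun Z π hZ hπ hf i Γ hΓ l hl => by
    rw [act_map_smul, act_map_smul, ha.2 Z π hZ hπ hf i Γ hΓ l hl, smul_zero]⟩

omit hH in
lemma act_deg {i j : ℕ} {Γ : C.A (X.prod Y)} (hΓ : C.Deg (X.dim + (i : ℤ) - j) Γ) {z : C.A X}
    (hz : C.Deg j z) : C.Deg i (C.act Γ z) := by
  have h := act_mem' C (e := (i : ℤ) - j) (gr_congr (by ring) hΓ) hz
  exact gr_congr (by ring) h

omit hH in
lemma sum_ck {π : ℕ → C.A (Z.prod Z)} (hπ : IsCK H Z π) (z : C.A Z) :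
    z = ∑ l ∈ Finset.range (2 * Z.dim + 1), C.act (π l) z := by
  rw [← act_sum, hπ.sum, act_dg]

omit hH in
lemma fil_anti (j ν : ℕ) : Fil H X j (ν + 1) ≤ Fil H X j ν := fun z hz =>
  ⟨hz.1, fun Z π hZ hπ hf i Γ hΓ l hl => hz.2 Z π hZ hπ hf i Γ hΓ l (by omega)⟩

omit hH in
lemma fil_stable {j i ν : ℕ} {Γ : C.A (X.prod Y)} (hΓ : C.Deg (X.dim + i - j) Γ) {z : C.A X}
    (hz : z ∈ Fil H X j ν) : C.act Γ z ∈ Fil H Y i ν := by
  refine ⟨act_deg hΓ hz.1, fun Z π hZ hπ hf i' Δ hΔ l hl => ?_⟩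
  rw [← C.act_comp Γ Δ]
  exact hz.2 Z π hZ hπ hf i' _ (comp_deg hΓ hΔ) l hl

variable (hW : ∀ j, VW (C := C) H j) (hB : ∀ j n, 2 * j < n → VB C j n)
include hW hB

lemma fil_zero {j : ℕ} {z : C.A X} (hz : C.Deg j z) : z ∈ Fil H X j 0 := by
  refine ⟨hz, fun Z π hZ hπ hf i Γ hΓ l hl => ?_⟩
  exact fac_big (N := N0 C) hQ0 (b := Z.dim) (fun j n P p hp _ => pv0 hW hB j n P p hp) le_rfl
    (hf l) (by omega) (act_deg hΓ hz)

lemma fil_one {j : ℕ} {z : C.A X} (hz : C.Deg j z) (h0 : H.cl z = 0) : z ∈ Fil H X j 1 := by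
  refine ⟨hz, fun Z π hZ hπ hf i Γ hΓ l hl => ?_⟩
  rcases Nat.lt_or_ge (2 * i) l with h1 | h1
  · exact fac_big (N := N0 C) hQ0 (b := Z.dim) (fun j n P p hp _ => pv0 hW hB j n P p hp) le_rfl
      (hf l) h1 (act_deg hΓ hz)
  · refine fac_eq (N := N0 C) hQ0 (b := Z.dim) (fun j n P p hp _ => pv0 hW hB j n P p hp) le_rfl
      (hf l) (by omega) (act_deg hΓ hz) ?_
    rw [cl_act H, h0, TheoryData.act_map_zero]

/-- Algebraically trivial classes in the kernel of the Abel-Jacobi map. -/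
lemma fil_two (hN : IsAbelJacobiKernel H N) (hA : ∀ j, VAJ (C := C) H N j) {j : ℕ} {z : C.A X}
    (hz : z ∈ N X j) (hzA : z ∈ AlgT H X j) : z ∈ Fil H X j 2 := by
  obtain ⟨h1, h0⟩ := hN.deg X j z hz
  refine ⟨h1, fun Z π hZ hπ hf i Γ hΓ l hl => ?_⟩
  rcases Nat.lt_or_ge (2 * i) (l + 1) with h2 | h2
  · exact (fil_one hW hB h1 h0).2 Z π hZ hπ hf i Γ hΓ l h2
  · have hl' : l + 1 = 2 * i := by omega
    have hwN := hN.stable X Z j i Γ hΓ z hz
    have hwA := alg_stable (H := H) hΓ hzA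
    refine fac_act (H := H) (fun γ hγ => ?_) (hf l)
    cases hγ with
    | unit c D E hc hD hE => omega
    | part n c P p f g hp hc hf hg =>
      refine part_act (H := H) hf (act_deg hΓ h1) fun hci => ?_
      have e : n = 2 * (i - c) - 1 := by omega
      subst e
      have hf' : C.Deg (Z.dim + ((i - c : ℕ) : ℤ) - i) f := gr_congr (by omega) hf
      exact hA (i - c) P p hp _ (hN.stable Z P i (i - c) f hf' _ hwN)
        (alg_stable (H := H) hf' hwA)

omit hW hB in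
/-- The classes of `F^1` are homologically trivial. -/
lemma fil_one_hom (hX : Hull C 0 (IsProduct (Q0 C)) X) {j : ℕ} {z : C.A X}
    (hz : z ∈ Fil H X j 1) : H.cl z = 0 := by
  obtain ⟨Z, hZ, f, g, hf, hg, hfg⟩ := hX
  obtain ⟨π, hπ, hπf⟩ := exists_ck (H := H) hQ0 hZ
  have hf' : C.Deg (X.dim + (j : ℤ) - j) f := gr_congr (by push_cast; ring) hf
  have hfz : C.Deg j (C.act f z) := act_deg hf' hz.1
  have h1 : H.cl (C.act f z) = 0 := by
    rw [sum_ck hπ (C.act f z), map_sum]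
    refine Finset.sum_eq_zero fun l _ => ?_
    by_cases hl : 2 * j < l + 1
    · rw [hz.2 Z π hZ hπ hπf j f hf' l hl, map_zero]
    · rw [cl_act H]
      exact hπ.act_ne l (2 * (j : ℤ)) _ (by omega) (H.cl_mem hfz)
  rw [← hfg z, cl_act H, h1, TheoryData.act_map_zero]

omit hW hB in
/-- The classes of `F^2` lie in the kernel of the Abel-Jacobi map. -/
lemma fil_two_le (hN : IsAbelJacobiKernel H N) (hX : Hull C 0 (IsProduct (Q0 C)) X) {j : ℕ}
    {z : C.A X} (hz : z ∈ Fil H X j 2) : z ∈ N X j := by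
  have h0 := fil_one_hom hX (fil_anti j 1 hz)
  obtain ⟨Z, hZ, f, g, hf, hg, hfg⟩ := hX
  obtain ⟨π, hπ, hπf⟩ := exists_ck (H := H) hQ0 hZ
  have hf' : C.Deg (X.dim + (j : ℤ) - j) f := gr_congr (by push_cast; ring) hf
  have hg' : C.Deg (Z.dim + (j : ℤ) - j) g := gr_congr (by push_cast; ring) hg
  have hfz : C.Deg j (C.act f z) := act_deg hf' hz.1
  have hfz0 : H.cl (C.act f z) = 0 := by rw [cl_act H, h0, TheoryData.act_map_zero]
  have h1 : C.act f z ∈ N Z j := by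
    rw [sum_ck hπ (C.act f z)]
    refine Submodule.sum_mem _ fun l _ => ?_
    by_cases hl : 2 * j < l + 2
    · rw [hz.2 Z π hZ hπ hπf j f hf' l hl]
      exact Submodule.zero_mem _
    · refine hN.kills Z Z j j (π l) (gr_congr (by ring) (hπ.deg l)) ?_ _ hfz hfz0
      intro a ha
      exact hπ.act_ne l _ a (by omega) ha
  rw [← hfg z]
  exact hN.stable Z X j j g hg' _ h1

omit hW hB in
lemma fil_top (hX : Hull C 0 (IsProduct (Q0 C)) X) {j : ℕ} {z : C.A X}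
    (hz : z ∈ Fil H X j (j + 1)) : z = 0 := by
  obtain ⟨Z, hZ, f, g, hf, hg, hfg⟩ := hX
  obtain ⟨π, hπ, hπf⟩ := exists_ck (H := H) hQ0 hZ
  have hf' : C.Deg (X.dim + (j : ℤ) - j) f := gr_congr (by push_cast; ring) hf
  have hfz : C.Deg j (C.act f z) := act_deg hf' hz.1
  have h1 : C.act f z = 0 := by
    rw [sum_ck hπ (C.act f z)]
    refine Finset.sum_eq_zero fun l _ => ?_
    by_cases hl : l < j
    · exact fac_small (H := H) hQ0 (hπf l) hl hfz
    · exact hz.2 Z π hZ hπ hπf j f hf' l (by omega)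
  rw [← hfg z, h1, C.act_map_zero]

lemma fil_shift (hX : Hull C 0 (IsProduct (Q0 C)) X) {j i ν : ℕ} {Γ : C.A (X.prod Y)}
    (hΓ : C.Deg (X.dim + i - j) Γ) (hk : Kills H Γ (2 * j - ν)) {z : C.A X}
    (hz : z ∈ Fil H X j ν) : C.act Γ z ∈ Fil H Y i (ν + 1) := by
  refine ⟨act_deg hΓ hz.1, fun Z π hZ hπ hf i' Δ hΔ l hl => ?_⟩
  by_cases hl1 : 2 * i' < l + ν
  · exact (fil_stable hΓ hz).2 Z π hZ hπ hf i' Δ hΔ l hl1
  obtain ⟨Z', hZ', a, b, ha, hb, hab⟩ := hX
  obtain ⟨π', hπ', hπf'⟩ := exists_ck (H := H) hQ0 hZ'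
  have ha' : C.Deg (X.dim + (j : ℤ) - j) a := gr_congr (by push_cast; ring) ha
  have hb' : C.Deg (Z'.dim + (j : ℤ) - j) b := gr_congr (by push_cast; ring) hb
  have hbM : C.Deg (Z'.dim + (i' : ℤ) - j) (C.comp b (C.comp Γ Δ)) :=
    comp_deg hb' (comp_deg hΓ hΔ)
  have e1 : C.act (π l) (C.act Δ (C.act Γ z)) =
      C.act (π l) (C.act (C.comp b (C.comp Γ Δ)) (C.act a z)) := by
    rw [C.act_comp, C.act_comp, hab]
  rw [e1, sum_ck hπ' (C.act a z), act_map_sum, act_map_sum]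
  refine Finset.sum_eq_zero fun l' _ => ?_
  by_cases hl' : 2 * j < l' + ν
  · rw [hz.2 Z' π' hZ' hπ' hπf' j a ha' l' hl', C.act_map_zero, C.act_map_zero]
  · rw [← C.act_comp, ← C.act_comp]
    have hPV := fun j n P p hp => pv0 (H := H) hW hB j n P p hp
    by_cases h3 : l' + 2 * i' < l + 2 * j
    · rw [comp_comp_zero' (N := N0 C) hQ0 hPV (hπf' l') (hf l) hbM (Or.inl h3),
        TheoryData.act_zero]
    · have hΓ' : C.Deg (Z'.dim + (i' : ℤ) - j) (C.comp (π' l')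
          (C.comp (C.comp b (C.comp Γ Δ)) (π l))) := by
        have h4 : C.Deg (Z.dim + (i' : ℤ) - i') (π l) := by simpa using hπ.deg l
        have h5 : C.Deg (Z'.dim + (j : ℤ) - j) (π' l') := by simpa using hπ'.deg l'
        exact comp_deg h5 (comp_deg hbM h4)
      have h6 : H.cl (C.comp (π' l') (C.comp (C.comp b (C.comp Γ Δ)) (π l))) = 0 := by
        apply hom_zero_of_act H
        have key : (H.actL (H.cl (C.comp (π' l') (C.comp (C.comp b (C.comp Γ Δ)) (π l)))) :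
            H.A Z' →ₗ[K] H.A Z) = 0 := by
          apply ext_gr H
          intro m c hc
          rw [TheoryData.actL_apply, LinearMap.zero_apply, TH133.actH_comp, TH133.actH_comp,
            hπ'.actH_eq _ _ hc]
          split_ifs with hm
          · rw [TH133.actH_comp, TH133.actH_comp]
            have h7 : H.act (H.cl b) c ∈ H.gr X (2 * j - ν) := by
              have h8 := actH_mem H (e := 0) (Γ := b) (a := c)
                (gr_congr (by ring) hb') hc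
              have e : m + 2 * 0 = 2 * (j : ℤ) - ν := by omega
              rw [e] at h8
              exact h8
            rw [hk _ h7, H.act_map_zero, H.act_map_zero]
          · rw [H.act_map_zero, H.act_map_zero]
        exact fun a => LinearMap.congr_fun key a
      have h7 : C.comp (π' l') (C.comp (C.comp (π' l') (C.comp (C.comp b (C.comp Γ Δ)) (π l)))
          (π l)) = C.comp (π' l') (C.comp (C.comp b (C.comp Γ Δ)) (π l)) := by
        rw [comp_assoc C (π' l'), comp_assoc C (C.comp b _), hπ.idem, ← comp_assoc C (π' l'),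
          hπ'.idem]
      rw [← h7, comp_comp_zero' (N := N0 C) hQ0 hPV (hπf' l') (hf l) hΓ' (Or.inr ⟨by omega, h6⟩),
        TheoryData.act_zero]

end Pool.Agent.Q187.MC
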