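import Pool.Agent.Q187.MC.Van

/-!
# The inductions
-/

open CategoryTheory AlgebraicGeometry

universe u v w

namespace Pool.Agent.Q187.MC

open Pool.Agent.H914 Pool.Agent.H914.VarClass Pool.Agent.H914.VarClass.Obj Pool.Agent.W492.BB
  Pool.Agent.W550.Corr Pool.Agent.TH133 Pool.Agent.Y148.BB Pool.Agent.Q187.AJ Pool.Agent.Q187.BC

set_option linter.unusedSectionVars false
set_option linter.unusedVariables false

variable {k : Type u} [Field k] {𝒱 : VarClass k}

variable {C : TheoryData.{u, v, 0} 𝒱 ℚ} [hC : IsChowProj C] {K : Type w} [Field K]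
  {H : WeilTheoryData.{u, v, w} C K} [hH : IsWeilProj H] {X Y Z W T P S R B M : 𝒱.Obj}
  {N : ∀ X : 𝒱.Obj, ℕ → Submodule ℚ (C.A X)}

include hH in
/-- All weights above the middle. -/
lemma vb_up (hF : FibreProperty C) {j : ℕ} (h' : ∀ i < j, ∀ n, 2 * i < n → VB C i n)
    (h : VB C j (2 * j + 1)) : ∀ n, 2 * j < n → VB C j n := by
  intro n hn
  induction n with
  | zero => omega
  | succ n ih =>
    rcases Nat.eq_or_lt_of_le (Nat.succ_le_of_lt hn) with h1 | h1
    · have e : n + 1 = 2 * j + 1 := by omega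
      rw [e]
      exact h
    · exact vb_succ (H := H) hF (by omega) (ih (by omega)) fun i hi => h' i hi n (by omega)

include hH in
theorem vb_all (hF : FibreProperty C) {d : ℕ} (h : ∀ j ≤ d, VB C j (2 * j + 1)) :
    ∀ j ≤ d, ∀ n, 2 * j < n → VB C j n := by
  intro j
  induction j using Nat.strong_induction_on with
  | _ j ih =>
    intro hj
    exact vb_up (H := H) hF (fun i hi => ih i hi (by omega)) (h j hj)

include hH in
theorem vb_of_alg_all (hF : FibreProperty C) {d : ℕ} (h : ∀ j ≤ d, VAlg (C := C) H j) :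
    ∀ j ≤ d, ∀ n, 2 * j < n → VB C j n := by
  intro j
  induction j using Nat.strong_induction_on with
  | _ j ih =>
    intro hj
    refine vb_up (H := H) hF (fun i hi => ih i hi (by omega)) ?_
    exact vb_of_alg hF (h j hj) fun i hi => ih i hi (by omega) _ (by omega)

include hH in
/-- Conjecture (B): the equivalences. -/
theorem b_iff (hF : FibreProperty C) (d : ℕ) :
    List.TFAE [
      ∀ j ≤ d, ∀ n, 2 * j < n → VB C j n,
      ∀ j ≤ d, VB C j (2 * j + 1),
      ∀ j ≤ d, VAlg (C := C) H j] := by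
  tfae_have 1 → 2 := fun h j hj => h j hj _ (by omega)
  tfae_have 2 → 3 := fun h j hj => alg_of_vb (h j hj)
  tfae_have 3 → 1 := fun h => vb_of_alg_all (H := H) hF h
  tfae_finish

include hH in
lemma vaj_small (hN : IsAbelJacobiKernel H N) {j : ℕ} (hj : j < 2) : VAJ (C := C) H N j := by
  intro P p hp z hz hzA
  have hpure := isPure_part (H := H) hQ0 hp
  have h1 := hpure.pos
  obtain rfl : j = 1 := by omega
  rw [hN.abel P z hz, C.act_map_zero]

/-- Conjecture (D): from algebraically trivial classes. -/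
theorem w_of_aj (hF : FibreProperty C) (hN : IsAbelJacobiKernel H N) {d : ℕ}
    (h : ∀ j, 2 ≤ j → j ≤ d → VAJ (C := C) H N j) :
    ∀ j ≤ d, VW (C := C) H j ∧ ∀ n, 2 * j < n → VB C j n := by
  intro j
  induction j using Nat.strong_induction_on with
  | _ j ih =>
    intro hj
    have haj : VAJ (C := C) H N j := by
      rcases Nat.lt_or_ge j 2 with h1 | h1
      · exact vaj_small hN h1
      · exact h j h1 hj
    have hw : VW (C := C) H j := by
      refine vw_of_aj hF hN haj fun i hi => ?_
      exact (ih i hi (by omega)).2 _ (by omega)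
    refine ⟨hw, vb_up (H := H) hF (fun i hi => (ih i hi (by omega)).2) ?_⟩
    exact vb_of_alg hF (vw_alg hw) fun i hi => (ih i hi (by omega)).2 _ (by omega)

/-- Conjecture (D): the equivalence. -/
theorem d_iff (hF : FibreProperty C) (hN : IsAbelJacobiKernel H N) (hG : Spread H N) (d : ℕ) :
    (∀ j ≤ d, VW (C := C) H j) ↔ ∀ j, 2 ≤ j → j ≤ d → VAJ (C := C) H N j :=
  ⟨fun h j hj hjd => aj_of_vw hG (by omega) (h j hjd),
    fun h j hj => (w_of_aj hF hN h j hj).1⟩

include hH in
theorem vb_of_w (hF : FibreProperty C) {d : ℕ} (h : ∀ j ≤ d, VW (C := C) H j) :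
    ∀ j ≤ d, ∀ n, 2 * j < n → VB C j n :=
  vb_of_alg_all (H := H) hF fun j hj => vw_alg (h j hj)

end Pool.Agent.Q187.MC
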