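import Pool.Agent.Q187.MC.Ind
import Pool.Agent.Q187.MC.Stmt
import Pool.Agent.Q187.BC.Cover

/-!
# Reduction to the powers of one curve
-/

open CategoryTheory AlgebraicGeometry

universe u v w

namespace Pool.Agent.Q187.MC

open Pool.Agent.H914 Pool.Agent.H914.VarClass Pool.Agent.H914.VarClass.Obj Pool.Agent.W492.BB
  Pool.Agent.W550.Corr Pool.Agent.TH133 Pool.Agent.Y148.BB Pool.Agent.Q187.AJ Pool.Agent.Q187.BC

set_option linter.unusedSectionVars false
set_option linter.unusedVariables false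

variable {k : Type u} [Field k] {𝒱 : VarClass k}

variable {C : TheoryData.{u, v, 0} 𝒱 ℚ} [hC : IsChowProj C] {K : Type w} [Field K]
  {H : WeilTheoryData.{u, v, w} C K} [hH : IsWeilProj H] {X Y Z W T T' P S R B M P' R' : 𝒱.Obj}
  {N : ∀ X : 𝒱.Obj, ℕ → Submodule ℚ (C.A X)}

/-- The power `T^(n+1)`. -/
noncomputable abbrev pw (T : 𝒱.Obj) (n : ℕ) : 𝒱.Obj := MCS.pow T n

/-- The projector on `h^1(T)^{⊗(n+1)}`. -/
noncomputable def pwp (o : C.A T) : ∀ n, C.A ((pw T n).prod (pw T n))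
  | 0 => oddProj C o
  | n + 1 => tens C (pwp o n) (oddProj C o)

lemma isPart_pw {o : C.A T} (hT : T.dim = 1) (ho : C.Deg 1 o) (hd : HasDegree C o 1) (n : ℕ) :
    IsPart (Q0 C) (n + 1) (pw T n) (pwp o n) := by
  induction n with
  | zero => exact IsPart.factor 1 T _ (IsFactor.curve T o hT ho hd)
  | succ n ih => exact IsPart.prod (n + 1) 1 _ T _ _ ih (IsFactor.curve T o hT ho hd)

/-- The motive `(P, p)` is a direct summand of `(R, r)`. -/
def Through (p : C.A (P.prod P)) (r : C.A (R.prod R)) : Prop :=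
  ∃ (f : C.A (P.prod R)) (g : C.A (R.prod P)) (c : ℚ), c ≠ 0 ∧ f ∈ C.gr (P.prod R) P.dim ∧
    g ∈ C.gr (R.prod P) R.dim ∧ C.comp (C.comp (C.comp p f) r) (C.comp g p) = c • p

include hC

lemma comp_cograph_graph (f : T' ⟶ T) {d : ℚ} (hd : C.push f (1 : C.A T') = d • 1) :
    C.comp (C.cograph f) (C.graph f) = d • dg C T := by
  have e1 : Obj.lift f (𝟙 T') ≫ prodMap (𝟙 T) f = f ≫ Obj.lift (𝟙 T) (𝟙 T) := by
    apply prod_ext <;> simp [prodMap]
  have h1 : C.comp (C.cograph f) (C.graph f) = C.push (prodMap (𝟙 T) f) (C.cograph f) :=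
    comp_graph f _
  rw [h1, TheoryData.cograph, ← C.push_comp, e1, C.push_comp, hd, map_smul]
  rfl

lemma smul_comp' (a : ℚ) (Γ : C.A (X.prod Y)) (Δ : C.A (Y.prod Z)) :
    C.comp (a • Γ) Δ = a • C.comp Γ Δ := by
  have h := (compL C (X := X) (Y := Y) (Z := Z)).map_smul a Γ
  exact congrArg (fun φ => φ Δ) h

lemma comp_smul' (a : ℚ) (Γ : C.A (X.prod Y)) (Δ : C.A (Y.prod Z)) :
    C.comp Γ (a • Δ) = a • C.comp Γ Δ := (compL C (X := X) (Y := Y) (Z := Z) Γ).map_smul a Δ

include hH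

/-- A curve and its covers. -/
lemma through_cover {o : C.A T} {o' : C.A T'} (hT : T.dim = 1) (ho : C.Deg 1 o)
    (hd : HasDegree C o 1) (hT' : T'.dim = 1) (ho' : C.Deg 1 o') (hd' : HasDegree C o' 1)
    (f : T' ⟶ T) (hf : C.push f 1 ≠ 0) : Through (oddProj C o) (oddProj C o') := by
  obtain ⟨c, hc⟩ := push_one (C := C) f (by rw [hT, hT'])
  have hc0 : c ≠ 0 := by
    rintro rfl
    exact hf (by rw [hc, zero_smul])
  have hr : IsPure H 1 T (oddProj C o) := isPure_odd hT ho hd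
  refine ⟨C.cograph f, C.graph f, c, hc0, cograph_mem _, ?_, ?_⟩
  · refine gr_congr ?_ (graph_mem (C := C) f)
    rw [hT, hT']
  have e0 : oddProj C o' = dg C T' - (C.ext o' 1 + C.ext 1 o') := by rw [oddProj]; abel
  have e1 : C.comp (C.comp (C.comp (oddProj C o) (C.cograph f)) (C.ext o' 1))
      (C.comp (C.graph f) (oddProj C o)) = 0 := by
    rw [comp_ext, ext_comp, C.act_comp, C.act_graph, hc, act_map_smul, hr.one, smul_zero,
      TheoryData.ext_zero_right]
  have e2 : C.comp (C.comp (C.comp (oddProj C o) (C.cograph f)) (C.ext 1 o'))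
      (C.comp (C.graph f) (oddProj C o)) = 0 := by
    have h1 : C.act (tp C (C.comp (oddProj C o) (C.cograph f))) (1 : C.A T') = 0 := by
      rw [tp_comp C (ch_comm C), hr.self, C.act_comp]
      refine pure_zero hr ?_
      have h2 := act_mem' C (e := 0) (i := 0) (Γ := tp C (C.cograph f)) (x := (1 : C.A T')) (by
        have h3 := tp_mem C (cograph_mem (C := C) f)
        rw [hT']; rw [hT] at h3; simpa using h3) (C.one_mem T')
      rw [add_zero] at h2
      exact h2
    rw [comp_ext, h1, TheoryData.ext_zero_left, zero_comp]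
  have e3 : C.comp (C.comp (C.comp (oddProj C o) (C.cograph f)) (dg C T'))
      (C.comp (C.graph f) (oddProj C o)) = c • oddProj C o := by
    rw [comp_dg, comp_assoc C, ← comp_assoc C (C.cograph f), comp_cograph_graph f hc,
      smul_comp', comp_smul', dg_comp, hr.idem]
  rw [e0, comp_sub, sub_comp, comp_add, add_comp, e1, e2, e3, add_zero, sub_zero]

omit hH in
lemma Through.tens {p : C.A (P.prod P)} {r : C.A (R.prod R)} {p' : C.A (P'.prod P')}
    {r' : C.A (R'.prod R')} (h : Through p r) (h' : Through p' r') :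
    Through (TH133.tens C p p') (TH133.tens C r r') := by
  obtain ⟨f, g, c, hc, hf, hg, e⟩ := h
  obtain ⟨f', g', c', hc', hf', hg', e'⟩ := h'
  refine ⟨TH133.tens C f f', TH133.tens C g g', c * c', mul_ne_zero hc hc', ?_, ?_, ?_⟩
  · refine gr_congr ?_ (tens_mem C hf hf')
    rw [dim_prod]; push_cast; ring
  · refine gr_congr ?_ (tens_mem C hg hg')
    rw [dim_prod]; push_cast; ring
  · rw [tens_comp'', tens_comp'', tens_comp'', tens_comp'', e, e', TH133.tens, TH133.tens,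
      map_smul, map_smul, smul_mul_smul_comm]

/-- All parts are summands of powers of one curve. -/
lemma exists_cov (hc : Covers C) {n : ℕ} {P : 𝒱.Obj} {p : C.A (P.prod P)}
    (hp : IsPart (Q0 C) n P p) : ∃ (m : ℕ) (T : 𝒱.Obj), n = m + 1 ∧ T.dim = 1 ∧
      ∀ (T' : 𝒱.Obj) (f : T' ⟶ T) (o' : C.A T'), T'.dim = 1 → C.push f 1 ≠ 0 → C.Deg 1 o' →
        HasDegree C o' 1 → Through p (pwp o' m) := by
  induction hp with
  | factor n T r hr =>
    cases hr with
    | curve _ o hT ho hd =>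
      exact ⟨0, T, rfl, hT, fun T' f o' hT' hf ho' hd' =>
        through_cover (H := H) hT ho hd hT' ho' hd' f hf⟩
    | surface _ _ h => exact h.elim
  | prod n m P T p r hp hr ih =>
    cases hr with
    | curve _ o hT ho hd =>
      obtain ⟨m', T₁, hm, hT₁, h⟩ := ih
      obtain ⟨T₀, a, b, hT₀, ha, hb⟩ := hc T₁ T hT₁ hT
      refine ⟨m' + 1, T₀, by omega, hT₀, fun T' f o' hT' hf ho' hd' => ?_⟩
      exact (h T' (f ≫ a) o' hT' (push_ne (by rw [hT', hT₀]) hf ha) ho' hd').tens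
        (through_cover (H := H) hT ho hd hT' ho' hd' (f ≫ b)
          (push_ne (by rw [hT', hT₀]) hf hb))
    | surface _ _ h => exact h.elim

lemma exists_pow (hc : Covers C) {n : ℕ} {P : 𝒱.Obj} {p : C.A (P.prod P)}
    (hp : IsPart (Q0 C) n P p) : ∃ (m : ℕ) (T : 𝒱.Obj) (o : C.A T), n = m + 1 ∧ T.dim = 1 ∧
      C.Deg 1 o ∧ HasDegree C o 1 ∧ Through p (pwp o m) := by
  obtain ⟨m, T, hm, hT, h⟩ := exists_cov (H := H) hc hp
  obtain ⟨T', f, -, hT', hf, -⟩ := hc T T hT hT
  obtain ⟨o, ho', ho1, ho2⟩ := exists_deg_one C T'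
  have ho : C.Deg 1 o := by
    rw [hT'] at ho'
    exact_mod_cast ho'
  have hd : HasDegree C o 1 := fun Y => by
    rw [one_smul]
    exact ⟨ho2 Y, ho1 Y⟩
  exact ⟨m, T', o, hm, hT', ho, hd, h T' f o hT' hf ho hd⟩

omit hH in
lemma Through.act_zero {p : C.A (P.prod P)} {r : C.A (R.prod R)} {f : C.A (P.prod R)}
    {g : C.A (R.prod P)} {c : ℚ} (hc : c ≠ 0)
    (h : C.comp (C.comp (C.comp p f) r) (C.comp g p) = c • p) {z : C.A P}
    (h0 : C.act r (C.act f (C.act p z)) = 0) : C.act p z = 0 := by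
  have h1 := congrArg (fun γ => C.act γ z) h
  simp only [C.act_comp, h0, C.act_map_zero] at h1
  have h2 : C.act (c • p) z = c • C.act p z := by
    rw [TheoryData.act_apply, smul_mul_assoc, map_smul]
    rfl
  rw [h2] at h1
  exact (smul_eq_zero.1 h1.symm).resolve_left hc

omit hH in
lemma act_mem00 {f : C.A (X.prod Y)} {j : ℕ} {z : C.A X}
    (hf : f ∈ C.gr (X.prod Y) X.dim) (hz : C.Deg j z) : C.Deg j (C.act f z) := by
  have h := act_mem' C (e := 0) (by rw [add_zero]; exact hf) hz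
  rwa [add_zero] at h

/-- The vanishing for powers of one curve suffices. -/
lemma vb_pow (hc : Covers C) {j m : ℕ} (h : ∀ (T : 𝒱.Obj) (o : C.A T), T.dim = 1 → C.Deg 1 o →
    HasDegree C o 1 → ∀ z : C.A (pw T m), C.Deg j z → C.act (pwp o m) z = 0) :
    VB C j (m + 1) := by
  intro P p hp z hz
  obtain ⟨m', T, o, hm, hT, ho, hd, f, g, c, hc0, hf, hg, e⟩ := exists_pow (H := H) hc hp
  obtain rfl : m' = m := by omega
  refine Through.act_zero hc0 e (h T o hT ho hd _ ?_)
  exact act_mem00 hf (act_mem0 C (isPure_part (H := H) hQ0 hp).mem hz)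

lemma vw_pow (hc : Covers C) {j m : ℕ} (hj : 2 * j = m + 1) (h : ∀ (T : 𝒱.Obj) (o : C.A T),
    T.dim = 1 → C.Deg 1 o → HasDegree C o 1 → ∀ z : C.A (pw T m), C.Deg j z → H.cl z = 0 →
      C.act (pwp o m) z = 0) : VW (C := C) H j := by
  intro P p hp z hz h0
  obtain ⟨m', T, o, hm, hT, ho, hd, f, g, c, hc0, hf, hg, e⟩ := exists_pow (H := H) hc hp
  obtain rfl : m' = m := by omega
  refine Through.act_zero hc0 e (h T o hT ho hd _ ?_ ?_)
  · exact act_mem00 hf (act_mem0 C (isPure_part (H := H) hQ0 hp).mem hz)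
  · rw [cl_act H, cl_act H, h0, TheoryData.act_map_zero, TheoryData.act_map_zero]

lemma valg_pow (hc : Covers C) {j m : ℕ} (hj : 2 * j = m + 1) (h : ∀ (T : 𝒱.Obj) (o : C.A T),
    T.dim = 1 → C.Deg 1 o → HasDegree C o 1 → ∀ z ∈ AlgT H (pw T m) j,
      C.act (pwp o m) z = 0) : VAlg (C := C) H j := by
  intro P p hp z hz
  obtain ⟨m', T, o, hm, hT, ho, hd, f, g, c, hc0, hf, hg, e⟩ := exists_pow (H := H) hc hp
  obtain rfl : m' = m := by omega
  refine Through.act_zero hc0 e (h T o hT ho hd _ ?_)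
  have h1 := alg_stable (H := H) (j := j) (i := j) (Γ := p)
    (gr_congr (by ring) (isPure_part (H := H) hQ0 hp).mem) hz
  exact alg_stable (H := H) (j := j) (i := j) (gr_congr (by ring) hf) h1

lemma vaj_pow (hN : IsAbelJacobiKernel H N) (hc : Covers C) {j m : ℕ} (hj : 2 * j - 1 = m + 1)
    (h : ∀ (T : 𝒱.Obj) (o : C.A T), T.dim = 1 → C.Deg 1 o → HasDegree C o 1 →
      ∀ z ∈ N (pw T m) j, z ∈ AlgT H (pw T m) j → C.act (pwp o m) z = 0) :
    VAJ (C := C) H N j := by
  intro P p hp z hz hzA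
  obtain ⟨m', T, o, hm, hT, ho, hd, f, g, c, hc0, hf, hg, e⟩ := exists_pow (H := H) hc hp
  obtain rfl : m' = m := by omega
  have hpm := (isPure_part (H := H) hQ0 hp).mem
  refine Through.act_zero hc0 e (h T o hT ho hd _ ?_ ?_)
  · refine hN.stable P _ j j f (gr_congr (by ring) hf) _ ?_
    exact hN.stable P _ j j p (gr_congr (by ring) hpm) z hz
  · have h1 := alg_stable (H := H) (j := j) (i := j) (Γ := p) (gr_congr (by ring) hpm) hzA
    exact alg_stable (H := H) (j := j) (i := j) (gr_congr (by ring) hf) h1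

end Pool.Agent.Q187.MC
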