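import Pool.Agent.Q187.AJ.Fac
import Pool.Agent.Q187.BC.Alg

/-!
# Vanishing for the motives `h^1(T_1) ⊗ ⋯ ⊗ h^1(T_n)` and algebraically trivial cycles
-/

open CategoryTheory AlgebraicGeometry

universe u v w

namespace Pool.Agent.Q187.MC

open Pool.Agent.H914 Pool.Agent.H914.VarClass Pool.Agent.H914.VarClass.Obj Pool.Agent.W492.BB
  Pool.Agent.W550.Corr Pool.Agent.TH133 Pool.Agent.Y148.BB Pool.Agent.Q187.AJ Pool.Agent.Q187.BC

set_option linter.unusedSectionVars false
set_option linter.unusedVariables false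

variable {k : Type u} [Field k] {𝒱 : VarClass k}

/-- No surfaces. -/
def Q0 (C : TheoryData.{u, v, 0} 𝒱 ℚ) : ∀ S : 𝒱.Obj, C.A (S.prod S) → Prop := fun _ _ => False

variable {C : TheoryData.{u, v, 0} 𝒱 ℚ} [hC : IsChowProj C] {K : Type w} [Field K]
  {H : WeilTheoryData.{u, v, w} C K} [hH : IsWeilProj H] {X Y Z W T P S R B M : 𝒱.Obj}
  {N : ∀ X : 𝒱.Obj, ℕ → Submodule ℚ (C.A X)}

lemma hQ0 : ∀ (S : 𝒱.Obj) (q : C.A (S.prod S)), Q0 C S q → IsTranscendental H S q :=
  fun _ _ h => h.elim

/-- The Chow groups `CH^j` of the motives `h^1(T_1) ⊗ ⋯ ⊗ h^1(T_n)` are zero. -/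
def VB (C : TheoryData.{u, v, 0} 𝒱 ℚ) (j n : ℕ) : Prop :=
  ∀ (P : 𝒱.Obj) (p : C.A (P.prod P)), IsPart (Q0 C) n P p → ∀ z, C.Deg j z → C.act p z = 0

/-- There are no homologically trivial classes in the middle. -/
def VW (H : WeilTheoryData.{u, v, w} C K) (j : ℕ) : Prop :=
  ∀ (P : 𝒱.Obj) (p : C.A (P.prod P)), IsPart (Q0 C) (2 * j) P p → ∀ z, C.Deg j z → H.cl z = 0 →
    C.act p z = 0

/-- There are no algebraically trivial classes in the middle. -/
def VAlg (H : WeilTheoryData.{u, v, w} C K) (j : ℕ) : Prop :=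
  ∀ (P : 𝒱.Obj) (p : C.A (P.prod P)), IsPart (Q0 C) (2 * j) P p → ∀ z ∈ AlgT H P j, C.act p z = 0

/-- The Abel-Jacobi map is injective on algebraically trivial classes. -/
def VAJ (H : WeilTheoryData.{u, v, w} C K) (N : ∀ X : 𝒱.Obj, ℕ → Submodule ℚ (C.A X)) (j : ℕ) :
    Prop :=
  ∀ (P : 𝒱.Obj) (p : C.A (P.prod P)), IsPart (Q0 C) (2 * j - 1) P p →
    ∀ z ∈ N P j, z ∈ AlgT H P j → C.act p z = 0

include hC hH

/-- The step along a curve. -/
lemma fib_zero (hF : FibreProperty C) {n : ℕ} {j : ℤ} {p : C.A (P.prod P)} (hp : IsPure H n P p)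
    {o : C.A T} (hT : T.dim = 1) (ho : C.Deg 1 o) (hd : HasDegree C o 1) {y : C.A (P.prod T)}
    (hy : C.Deg j y) (hyy : C.act (tens C p (oddProj C o)) y = y)
    (h1 : ∀ t, C.Deg 1 t → H.cl t = 0 → C.act p (C.act (tp C y) t) = 0)
    (h2 : ∀ x, C.Deg (j - 1) x → C.act p x = 0) : y = 0 := by
  have hr : IsPure H 1 T (oddProj C o) := isPure_odd hT ho hd
  have hy1 : y = C.comp (C.comp p y) (oddProj C o) := by
    rw [← act_curry p (oddProj C o) hp.self, hyy]
  have htp : tp C y = C.comp (oddProj C o) (C.comp (tp C y) p) := by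
    conv_lhs => rw [hy1]
    rw [tp_comp C (ch_comm C), tp_comp C (ch_comm C), hr.self, hp.self]
  have fib : ∀ t : C.A T, C.Deg 1 t → C.down (fst P T) (C.mul y (C.up (snd P T) t)) = 0 := by
    intro t ht
    have e1 : C.down (fst P T) (C.mul y (C.up (snd P T) t)) = C.act (tp C y) t :=
      (act_tp C y t).symm
    have hb : C.Deg 1 (C.act (oddProj C o) t) := act_mem0 C hr.mem ht
    have hb0 : H.cl (C.act (oddProj C o) t) = 0 := by
      rw [cl_act H]
      refine hr.kills 2 (by norm_num) _ ?_
      have := H.cl_mem (C := C) (X := T) ht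
      simpa using this
    rw [e1, htp, C.act_comp, C.act_comp]
    exact h1 _ hb hb0
  have hspan := hF P T j y hT hy fib
  rw [← hyy]
  refine eq_zero_of_span (H := H) hspan ?_
  rintro c ⟨x, t, hx, ht, rfl⟩
  rw [act_tens_ext C p _ (fun f c => ch_comm C _ _), h2 x hx, TheoryData.ext_zero_left]

lemma alg_hom {j : ℤ} {z : C.A X} (hz : z ∈ AlgT H X j) : H.cl z = 0 := by
  induction hz using Submodule.span_induction with
  | mem x hx =>
    obtain ⟨B, W, b, hB, hW, hb, hb0, rfl⟩ := hx
    rw [cl_act H, hb0, TheoryData.act_map_zero]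
  | zero => exact map_zero _
  | add x y _ _ hx hy => rw [map_add, hx, hy, add_zero]
  | smul r x _ hx =>
    have e : r • x = (r • (1 : C.A X)) * x := by rw [smul_mul_assoc, one_mul]
    rw [e, map_mul, hx, mul_zero]

omit hH in
lemma alg_deg {j : ℕ} {z : C.A X} (hz : z ∈ AlgT H X j) : C.Deg j z := by
  have h1 : AlgT H X j ≤ C.gr X j := by
    refine Submodule.span_le.2 ?_
    rintro c ⟨B, W, b, hB, hW, hb, hb0, rfl⟩
    have h2 := act_mem' C (e := (j : ℤ) - 1) (i := 1) (Γ := W) (x := b)
      (by rw [hB]; exact gr_congr (by push_cast; ring) hW) hb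
    exact gr_congr (by ring) h2
  exact h1 hz

omit hH in
lemma low {j n : ℕ} (h : ∀ i < j, VB C i n) {P : 𝒱.Obj} {p : C.A (P.prod P)}
    (hp : IsPart (Q0 C) n P p) {x : C.A P} (hx : C.Deg ((j : ℤ) - 1) x) : C.act p x = 0 := by
  rcases Nat.eq_zero_or_pos j with rfl | hj
  · have h1 : x ∈ C.gr P (((0 : ℕ) : ℤ) - 1) := hx
    rw [C.gr_neg P _ (by norm_num), Submodule.mem_bot] at h1
    rw [h1, C.act_map_zero]
  · refine h (j - 1) (by omega) P p hp x ?_
    have e : ((j - 1 : ℕ) : ℤ) = (j : ℤ) - 1 := by omega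
    rw [e]
    exact hx

/-- The vanishing of `CH^0`. -/
lemma vb_zero {n : ℕ} : VB C 0 n := by
  intro P p hp z hz
  obtain ⟨c, rfl⟩ := hC.gr_zero P z (by simpa using hz)
  rw [act_map_smul, (isPure_part (H := H) hQ0 hp).one, smul_zero]

variable (hF : FibreProperty C)
include hF

/-- One more curve. -/
lemma vb_succ {j n : ℕ} (hn : 1 ≤ n) (h : VB C j n) (h' : ∀ i < j, VB C i n) : VB C j (n + 1) := by
  intro P p hp z hz
  have hpure := isPure_part (H := H) hQ0 hp
  generalize hm : n + 1 = m at hp
  cases hp with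
  | factor _ T r hr =>
    cases hr with
    | curve _ o hT ho hd => omega
    | surface _ _ h => exact h.elim
  | prod n' m' P' T p' r hp' hr =>
    cases hr with
    | curve _ o hT ho hd =>
      obtain rfl : n = n' := by omega
      have hp'' := isPure_part (H := H) hQ0 hp'
      refine fib_zero (H := H) hF hp'' hT ho hd (act_mem0 C hpure.mem hz)
        (by rw [← C.act_comp, hpure.idem]) (fun t ht _ => ?_) (fun x hx => low h' hp' hx)
      refine h P' p' hp' _ ?_
      have h1 := act_mem' C (e := (j : ℤ) - 1) (i := 1)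
        (Γ := tp C (C.act (tens C p' (oddProj C o)) z)) (x := t)
        (by rw [hT]; exact gr_congr (by push_cast; ring) (tp_mem C (act_mem0 C hpure.mem hz))) ht
      exact gr_congr (by ring) h1
    | surface _ _ h => exact h.elim

/-- From the middle to the next weight. -/
lemma vb_of_alg {j : ℕ} (h : VAlg (C := C) H j) (h' : ∀ i < j, VB C i (2 * j)) :
    VB C j (2 * j + 1) := by
  rcases Nat.eq_zero_or_pos j with rfl | hj
  · exact vb_zero (H := H)
  intro P p hp z hz
  have hpure := isPure_part (H := H) hQ0 hp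
  generalize hm : 2 * j + 1 = m at hp
  cases hp with
  | factor _ T r hr =>
    cases hr with
    | curve _ o hT ho hd => omega
    | surface _ _ h => exact h.elim
  | prod n' m' P' T p' r hp' hr =>
    cases hr with
    | curve _ o hT ho hd =>
      obtain rfl : n' = 2 * j := by omega
      have hp'' := isPure_part (H := H) hQ0 hp'
      refine fib_zero (H := H) hF hp'' hT ho hd (act_mem0 C hpure.mem hz)
        (by rw [← C.act_comp, hpure.idem]) (fun t ht ht0 => ?_) (fun x hx => low h' hp' hx)
      refine h P' p' hp' _ ?_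
      exact Submodule.subset_span ⟨T, _, t, hT, tp_mem C (act_mem0 C hpure.mem hz), ht, ht0, rfl⟩
    | surface _ _ h => exact h.elim

/-- From the weight `2 j - 1` to the middle. -/
lemma vw_of_aj (hN : IsAbelJacobiKernel H N) {j : ℕ} (h : VAJ (C := C) H N j)
    (h' : ∀ i < j, VB C i (2 * j - 1)) : VW (C := C) H j := by
  intro P p hp z hz h0
  have hpure := isPure_part (H := H) hQ0 hp
  have hz1 : H.cl (C.act p z) = 0 := by rw [cl_act H, h0, TheoryData.act_map_zero]
  generalize hm : 2 * j = m at hp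
  cases hp with
  | factor _ T r hr =>
    cases hr with
    | curve _ o hT ho hd => omega
    | surface _ _ h => exact h.elim
  | prod n' m' P' T p' r hp' hr =>
    cases hr with
    | curve _ o hT ho hd =>
      obtain rfl : n' = 2 * j - 1 := by omega
      have hp'' := isPure_part (H := H) hQ0 hp'
      have hw := tp_mem C (act_mem0 C hpure.mem hz)
      refine fib_zero (H := H) hF hp'' hT ho hd (act_mem0 C hpure.mem hz)
        (by rw [← C.act_comp, hpure.idem]) (fun t ht ht0 => ?_) (fun x hx => low h' hp' hx)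
      refine h P' p' hp' _ ?_ ?_
      · refine hN.kills T P' 1 j _ ?_ ?_ t (by exact_mod_cast ht) ht0
        · rw [hT]
          exact gr_congr (by push_cast; ring) hw
        · apply kills_of_cl
          rw [cl_tp, hz1, tp_zero]
      · exact Submodule.subset_span ⟨T, _, t, hT, hw, ht, ht0, rfl⟩
    | surface _ _ h => exact h.elim

omit hF

omit hH in
lemma vw_alg {j : ℕ} [hH : IsWeilProj H] (h : VW (C := C) H j) : VAlg (C := C) H j := fun P p hp z hz =>
  h P p hp z (alg_deg hz) (alg_hom hz)

/-- Algebraically trivial classes and one more curve. -/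
lemma alg_of_vb {j : ℕ} (h : VB C j (2 * j + 1)) : VAlg (C := C) H j := by
  intro P p hp z hz
  have hpure := isPure_part (H := H) hQ0 hp
  have h1 : AlgT H P j ≤ LinearMap.ker (C.actL p) := by
    refine Submodule.span_le.2 ?_
    rintro c ⟨B, W, b, hB, hW, hb, hb0, rfl⟩
    change C.act p (C.act W b) = 0
    obtain ⟨o, ho', ho1, ho2⟩ := exists_deg_one C B
    have ho : C.Deg 1 o := by
      rw [hB] at ho'
      exact_mod_cast ho'
    have hd : HasDegree C o 1 := fun Y => by
      rw [one_smul]
      exact ⟨ho2 Y, ho1 Y⟩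
    have hodd := odd_act_hom (H := H) hB ho hb hb0
    have h2 : C.act (tens C p (oddProj C o)) (tp C W) = 0 :=
      h _ _ (IsPart.prod (2 * j) 1 P B p _ hp (IsFactor.curve B o hB ho hd)) _ (tp_mem C hW)
    have h3 : C.comp (C.comp (oddProj C o) W) p = 0 := by
      rw [act_curry p _ hpure.self] at h2
      have h4 := congrArg (tp C) h2
      rw [tp_comp C (ch_comm C), tp_comp C (ch_comm C), hpure.self, tp_odd, tp_tp, tp_zero,
        ← comp_assoc C] at h4
      exact h4
    have e1 : C.act p (C.act W b) = C.act (C.comp (C.comp (oddProj C o) W) p) b := by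
      rw [fac3, hodd]
    rw [e1, h3, TheoryData.act_zero]
  exact h1 hz

/-- Algebraically trivial classes in the kernel of the Abel-Jacobi map. -/
lemma aj_of_vw {j : ℕ} (hG : Spread H N) (hj : 1 ≤ j) (h : VW (C := C) H j) :
    VAJ (C := C) H N j := by
  intro P p hp z hz hzA
  have hpure := isPure_part (H := H) hQ0 hp
  have h1 : AlgN H P j ≤ LinearMap.ker (C.actL p) := by
    refine Submodule.span_le.2 ?_
    rintro c ⟨B, W, b, hB, hW, hk, hb, hb0, rfl⟩
    change C.act p (C.act W b) = 0
    obtain ⟨o, ho', ho1, ho2⟩ := exists_deg_one C B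
    have ho : C.Deg 1 o := by
      rw [hB] at ho'
      exact_mod_cast ho'
    have hd : HasDegree C o 1 := fun Y => by
      rw [one_smul]
      exact ⟨ho2 Y, ho1 Y⟩
    have hr : IsPure H 1 B (oddProj C o) := isPure_odd hB ho hd
    have hodd := odd_act_hom (H := H) hB ho hb hb0
    have e1 : C.act p (C.act W b) = C.act (C.comp (C.comp (oddProj C o) W) p) b := by
      rw [fac3, hodd]
    have h0 : H.cl (C.comp (C.comp (oddProj C o) W) p) = 0 := by
      refine hom_zero_of_act H fun a => ?_
      have key : ∀ m : ℤ, ∀ a ∈ H.gr B m,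
          H.act (H.cl (C.comp (C.comp (oddProj C o) W) p)) a = 0 := by
        intro m a ha
        rw [actH_comp, actH_comp]
        by_cases hm : m = 1
        · subst hm
          have h1 := actH_mem H (e := 0) (by rw [add_zero]; exact hr.mem) ha
          rw [mul_zero, add_zero] at h1
          rw [hk _ h1, TheoryData.act_map_zero]
        · rw [hr.kills m (by exact_mod_cast hm) a ha, TheoryData.act_map_zero,
            TheoryData.act_map_zero]
      have h1 := ext_gr H (H.actL (H.cl (C.comp (C.comp (oddProj C o) W) p))) 0 fun m a ha => by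
        rw [LinearMap.zero_apply]
        exact key m a ha
      exact congrArg (fun f => f a) h1
    have hpart : IsPart (Q0 C) (2 * j) (P.prod B) (tens C p (oddProj C o)) := by
      have h2 := IsPart.prod (2 * j - 1) 1 P B p _ hp (IsFactor.curve B o hB ho hd)
      have e : 2 * j - 1 + 1 = 2 * j := by omega
      rwa [e] at h2
    have hmem : C.Deg j (C.comp (C.comp (oddProj C o) W) p) := by
      have h2 := comp_mem C (e := 0) (e' := (j : ℤ) - 1) (Γ := oddProj C o) (Δ := W)
        (by rw [add_zero]; exact hr.mem) (by rw [hB]; exact gr_congr (by push_cast; ring) hW)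
      have h3 := comp_mem C (e' := 0) h2 (by rw [add_zero]; exact hpure.mem)
      refine gr_congr ?_ h3
      rw [hB]; push_cast; ring
    have h2 := h _ _ hpart (tp C (C.comp (C.comp (oddProj C o) W) p)) (tp_mem C hmem)
      (by rw [cl_tp, h0, tp_zero])
    have h3 : C.comp (C.comp (oddProj C o) W) p = 0 := by
      rw [act_curry p _ hpure.self] at h2
      have h4 := congrArg (tp C) h2
      rw [tp_comp C (ch_comm C), tp_comp C (ch_comm C), hpure.self, tp_odd, tp_tp, tp_zero] at h4
      simp only [comp_assoc C] at h4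
      rw [hpure.idem, ← comp_assoc C (oddProj C o) (oddProj C o), hr.idem,
        ← comp_assoc C] at h4
      exact h4
    rw [e1, h3, TheoryData.act_zero]
  exact h1 (hG P j z hzA hz)

end Pool.Agent.Q187.MC
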